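import Pool.Agent.U199.ZR.L
import Pool.Agent.Q224.TT.Cla

/-!
# Boxes in the real points of `w² = e f(x, y)`
-/

set_option autoImplicit false
set_option linter.unusedSectionVars false
set_option linter.unusedVariables false

open MvPolynomial Pool.Agent.Y720.MZ

namespace Pool.Agent.U199.ZR

open Pool.Agent.Q35.ZC
open Pool.Agent.Q35.TT (SmoothN TorN Tor TorT lc af bq tay ND S_TWS S_SPE S_TBN pq cy gd)
open Pool.Agent.Q121.TT (cf lc_zero lc_one pq_eval)
open Pool.Agent.Q190.TT (lc_smul bq_smul)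
open Pool.Agent.Q222.TT.Opn (lc_line eval_lc)

section reg

variable {K : Type} [Field K] [CharZero K]

theorem gi {f : MvPolynomial (Fin 2) K} (hf : ∀ j, f.degreeOf j ≤ 4) (z : Fin 2 → K) (i : Fin 2) :
    GenusOne (line f z i) ↔ dc (lc f (af z) i 0) (lc f (af z) i 1) (lc f (af z) i 2)
      (lc f (af z) i 3) (lc f (af z) i 4) ≠ 0 :=
  Pool.Agent.Q222.TT.Opn.genus_iff hf z i

/-- the line through `z` in the direction `i` is regular: a curve of genus one, not special for `j` -/
def Reg (f : MvPolynomial (Fin 2) K) (z : Fin 2 → K) (i j : Fin 2) : Prop :=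
  GenusOne (line f z i) ∧ ND (lc f (af z) i) (lc (pderiv j f) (af z) i)

theorem pder_deg {f : MvPolynomial (Fin 2) K} (hf : ∀ j, f.degreeOf j ≤ 4) (k : Fin 2) :
    ∀ j, (pderiv k f).degreeOf j ≤ 4 := fun j =>
  (Pool.Agent.Q224.TT.degreeOf_pderiv_le f k j).trans (hf j)

theorem reg_line {f : MvPolynomial (Fin 2) K} (hf : ∀ j, f.degreeOf j ≤ 4) {z z' : Fin 2 → K}
    {i j : Fin 2} (h : ∀ k, k ≠ i → z k = z' k) : Reg f z i j ↔ Reg f z' i j := by
  unfold Reg
  rw [gi hf, gi hf, lc_line hf z z' i h, lc_line (pder_deg hf j) z z' i h]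

theorem nd_congr {g h h' : Fin 5 → K} (he : ∀ t, bq h ![1, t] = bq h' ![1, t]) : ND g h ↔ ND g h' := by
  have h1 : pq h = pq h' := by
    refine Polynomial.funext fun t => ?_
    rw [pq_eval, pq_eval, he]
  unfold Pool.Agent.Q35.TT.ND
  rw [h1]

/-- all but finitely many lines are regular -/
theorem fin_reg (h3 : S_SPE) {f : MvPolynomial (Fin 2) K} (hf : ∀ j, f.degreeOf j ≤ 4)
    (hs : SmoothN f) (i j : Fin 2) (hij : i ≠ j) :
    {c : K | ∃ x : Fin 2 → K, x j = c ∧ ¬ Reg f x i j}.Finite := by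
  have hs1 := Pool.Agent.Q121.TT.smooth hf hs
  have hs2 := Pool.Agent.Q121.TT.smooth_swap hs1
  have hc : (i = 1 ∧ j = 0) ∨ (i = 0 ∧ j = 1) := by
    revert i j
    decide
  rcases hc with ⟨rfl, rfl⟩ | ⟨rfl, rfl⟩
  · refine (h3 K _ hs1).2.subset ?_
    rintro c ⟨x, hx, hn⟩
    subst hx
    by_contra hcon
    rw [Set.mem_ofPred_eq, not_or, not_not] at hcon
    obtain ⟨h1, h2⟩ := hcon
    apply hn
    refine ⟨?_, ?_⟩
    · rw [gi hf, lc_one f hf]
      exact h1
    · rw [lc_one f hf]
      refine (nd_congr fun t => ?_).1 h2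
      have e1 := Pool.Agent.Q121.TT.eval_d f hf (Function.update x 1 t)
      have e2 := eval_lc (pder_deg hf 0) (Function.update x 1 t) 1
      rw [Function.update_self] at e1 e2
      rw [Function.update_of_ne (by decide)] at e1
      rw [← e1, e2, lc_line (pder_deg hf 0) (Function.update x 1 t) x 1 fun k hk => by
        rw [Function.update_of_ne hk]]
  · refine (h3 K _ hs2).2.subset ?_
    rintro c ⟨x, hx, hn⟩
    subst hx
    by_contra hcon
    rw [Set.mem_ofPred_eq, not_or, not_not] at hcon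
    obtain ⟨h1, h2⟩ := hcon
    apply hn
    refine ⟨?_, ?_⟩
    · rw [gi hf, lc_zero f hf]
      exact h1
    · rw [lc_zero f hf]
      refine (nd_congr fun t => ?_).1 h2
      have e1 := Pool.Agent.Q121.TT.eval_d' f hf (Function.update x 0 t)
      have e2 := eval_lc (pder_deg hf 1) (Function.update x 0 t) 0
      rw [Function.update_self] at e1 e2
      rw [Function.update_of_ne (by decide)] at e1
      rw [← e1, e2, lc_line (pder_deg hf 1) (Function.update x 0 t) x 0 fun k hk => by
        rw [Function.update_of_ne hk]]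

/-- the class has infinite order -/
theorem io_tw (h2 : S_TWS) {f : MvPolynomial (Fin 2) K} (hf : ∀ j, f.degreeOf j ≤ 4) {e : K}
    (he : e ≠ 0) {z : Fin 2 → K} {i : Fin 2} (hi : ¬ TorN f z i) (hG : GenusOne (line f z i)) :
    ∀ w : K, w ≠ 0 → w ^ 2 = eval z (C e * f) → IOt (th (C e * f) (Pi.single i 1) z w) := by
  intro w hw hon
  have hg : ∀ j, (C e * f).degreeOf j ≤ 4 := fun j => (degreeOf_C_mul_le f j e).trans (hf j)
  have hG' : GenusOne (line (C e * f) z i) := by
    rw [line_twist]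
    exact genus_twist he hG
  have hI : ∀ N : ℕ, N ≠ 0 → ¬ Tor (lc (C e * f) (af z) i) (z i) w N := by
    intro N hN h5
    rw [lc_smul f e he, h2 K _ e _ _ _ he] at h5
    exact hi ⟨N, hN, h5.2.2⟩
  exact io_of hon (moves_of hg hw hon hG' hI)

/-- the points at which the moves begin: not torsion in the direction of a regular line -/
def Start (f : MvPolynomial (Fin 2) K) (z : Fin 2 → K) : Prop :=
  ∃ i j, i ≠ j ∧ ¬ TorN f z i ∧ Reg f z i j

end reg

section box

variable {K : Type} [Field K] [NumberField K]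

/-- **Boxes.** -/
theorem box (hS : S_STEP) (h2 : S_TWS) (h3 : S_SPE) (h4 : S_TBN) (σ : K →+* ℝ)
    {f : MvPolynomial (Fin 2) K} (hf : ∀ j, f.degreeOf j ≤ 4) (hs : SmoothN f) {e : K} (he : e ≠ 0)
    {x : Fin 2 → ℝ} {δ : ℝ}
    (hbox : ∀ b : Fin 2 → ℝ, (∀ k, |b k - x k| < δ) → 0 < eval b (map σ (C e * f)))
    {z : Fin 2 → K} {w : K} (hw : w ≠ 0) (hon : w ^ 2 = eval z (C e * f)) (hz : Start f z)
    (hzx : ∀ k, |σ (z k) - x k| < δ) {y : Fin 2 → ℝ} (hy : ∀ k, |y k - x k| < δ) {B : Set K}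
    (hB : B.Finite) {ε : ℝ} (hε : 0 < ε) :
    ∃ z' w', w' ≠ 0 ∧ (z', w') ∈ Odds (C e * f) (z, w) ∧ Start f z' ∧ (∀ k, z' k ∉ B) ∧
      ∀ k, |σ (z' k) - y k| < ε := by
  classical
  have hd : ∀ j, (C e * f).degreeOf j ≤ 4 := fun j => (degreeOf_C_mul_le f j e).trans (hf j)
  obtain ⟨i, j, hij, hT, hR⟩ := hz
  have hk : ∀ k : Fin 2, k = i ∨ k = j := by
    intro k
    have := hij
    omega
  -- the first move
  have hF1 : (({t : K | TorN f (Function.update z i t) j} ∪
      {c : K | ∃ x : Fin 2 → K, x i = c ∧ ¬ Reg f x j i}) ∪ B).Finite :=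
    ((h4 K 2 f hf z i j hij hR.2).union (fin_reg h3 hf hs j i (Ne.symm hij))).union hB
  obtain ⟨r, Z, a1, a2, a3, a4⟩ := line_target hS σ hd hw hon (io_tw h2 hf he hT hR.1)
    (x := x i) (hzx i) (fun t ht => hbox _ fun k => by
      by_cases h : k = i
      · subst h
        rw [Function.update_self]
        exact ht
      · rw [Function.update_of_ne h]
        exact hzx k) (hy i) hF1 (lt_min hε (show 0 < δ - |y i - x i| by linarith [hy i]))
  rw [Set.mem_union, Set.mem_union, not_or, not_or] at a2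
  set z1 : Fin 2 → K := Function.update z i r with hz1
  have hz1i : z1 i = r := by rw [hz1, Function.update_self]
  have hz1j : z1 j = z j := by rw [hz1, Function.update_of_ne (Ne.symm hij)]
  have hT1 : ¬ TorN f z1 j := a2.1.1
  have hR1 : Reg f z1 j i := by
    by_contra hcon
    exact a2.1.2 ⟨z1, hz1i, hcon⟩
  have hon1 : Z ^ 2 = eval z1 (C e * f) := a4.1
  have hz1x : ∀ k, |σ (z1 k) - x k| < δ := by
    intro k
    rcases hk k with rfl | rfl
    · rw [hz1i]
      have b1 := a1.trans_le (min_le_right _ _)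
      have b2 := abs_add_le (σ r - y k) (y k - x k)
      have b3 : σ r - y k + (y k - x k) = σ r - x k := by ring
      rw [b3] at b2
      linarith
    · rw [hz1j]
      exact hzx k
  -- the second move
  have hF2 : (({t : K | TorN f (Function.update z1 j t) i} ∪
      {c : K | ∃ x : Fin 2 → K, x j = c ∧ ¬ Reg f x i j}) ∪ B).Finite :=
    ((h4 K 2 f hf z1 j i (Ne.symm hij) hR1.2).union (fin_reg h3 hf hs i j hij)).union hB
  obtain ⟨r2, Z2, c1, c2, c3, c4⟩ := line_target hS σ hd a3 hon1 (io_tw h2 hf he hT1 hR1.1)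
    (x := x j) (hz1x j) (fun t ht => hbox _ fun k => by
      by_cases h : k = j
      · subst h
        rw [Function.update_self]
        exact ht
      · rw [Function.update_of_ne h]
        exact hz1x k) (hy j) hF2 hε
  rw [Set.mem_union, Set.mem_union, not_or, not_or] at c2
  refine ⟨Function.update z1 j r2, Z2, c3, odds_trans a4 c4, ⟨i, j, hij, c2.1.1, ?_⟩, ?_, ?_⟩
  · by_contra hcon
    exact c2.1.2 ⟨_, Function.update_self _ _ _, hcon⟩
  · intro k
    rcases hk k with rfl | rfl
    · rw [Function.update_of_ne hij, hz1i]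
      exact a2.2
    · rw [Function.update_self]
      exact c2.2
  · intro k
    rcases hk k with rfl | rfl
    · rw [Function.update_of_ne hij, hz1i]
      exact a1.trans_le (min_le_left _ _)
    · rw [Function.update_self]
      exact c1

end box

end Pool.Agent.U199.ZR
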