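import Pool.Agent.U199.ZR.B

/-!
# Connected components of the real points of `w² = e f(x, y)`
-/

set_option autoImplicit false
set_option linter.unusedSectionVars false
set_option linter.unusedVariables false

open MvPolynomial Pool.Agent.Y720.MZ Filter Topology

namespace Pool.Agent.U199.ZR

open Pool.Agent.Q35.ZC
open Pool.Agent.Q35.TT (SmoothN TorN Tor TorT lc af bq tay ND S_TWS S_SPE S_TBN)

variable {K : Type} [Field K] [NumberField K]

/-- closed under odd multiples -/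
def Odd' (g : MvPolynomial (Fin 2) K) (R : Set ((Fin 2 → K) × K)) : Prop :=
  ∀ P ∈ R, OnCover g P ∧ Odds g P ⊆ R

/-- the points where moves begin, with coordinates outside `B` or not -/
def RS (f : MvPolynomial (Fin 2) K) (R : Set ((Fin 2 → K) × K)) : Set ((Fin 2 → K) × K) :=
  {Q | Q ∈ R ∧ Q.2 ≠ 0 ∧ Start f Q.1}

/-- the same outside `B` -/
def RB (f : MvPolynomial (Fin 2) K) (R : Set ((Fin 2 → K) × K)) (B : Set K) :
    Set ((Fin 2 → K) × K) :=
  {Q | Q ∈ R ∧ Q.2 ≠ 0 ∧ Start f Q.1 ∧ ∀ k, Q.1 k ∉ B}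

/-- the real points of a set -/
def rp (σ : K →+* ℝ) (R : Set ((Fin 2 → K) × K)) : Set ((Fin 2 → ℝ) × ℝ) :=
  {S | ∃ Q ∈ R, S = Pool.Agent.Q35.ZC.image σ Q}

section

variable (hS : S_STEP) (h2 : S_TWS) (h3 : S_SPE) (h4 : S_TBN) (σ : K →+* ℝ)
  {f : MvPolynomial (Fin 2) K} (hf : ∀ j, f.degreeOf j ≤ 4) (hs : SmoothN f) {e : K} (he : e ≠ 0)
  {R : Set ((Fin 2 → K) × K)} (hR : Odd' (C e * f) R) {B : Set K} (hB : B.Finite)

include hS h2 h3 h4 hf hs he hR hB

/-- the closure of the projections is open where the polynomial is positive -/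
theorem open_at {x : Fin 2 → ℝ}
    (hx : x ∈ closure ((fun S : (Fin 2 → ℝ) × ℝ => S.1) '' rp σ (RS f R)))
    (hpos : 0 < eval x (map σ (C e * f))) :
    closure ((fun S : (Fin 2 → ℝ) × ℝ => S.1) '' rp σ (RB f R B)) ∈ 𝓝 x := by
  have hcont : Continuous fun x : Fin 2 → ℝ => eval x (map σ (C e * f)) := continuous_eval _
  obtain ⟨δ, hδ, hball⟩ := Metric.isOpen_iff.mp (isOpen_lt continuous_const hcont) x hpos
  have hbox : ∀ b : Fin 2 → ℝ, (∀ i, |b i - x i| < δ) → 0 < eval b (map σ (C e * f)) := by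
    intro b hb
    have h1 : b ∈ Metric.ball x δ := by
      rw [Metric.mem_ball, dist_pi_lt_iff hδ]
      intro k
      rw [Real.dist_eq]
      exact hb k
    exact hball h1
  obtain ⟨_, ⟨_, ⟨⟨z, w⟩, ⟨hzR, hw, hst⟩, rfl⟩, rfl⟩, hd⟩ := Metric.mem_closure_iff.mp hx δ hδ
  have hzb : ∀ k, |σ (z k) - x k| < δ := by
    intro k
    rw [dist_comm, dist_pi_lt_iff hδ] at hd
    have := hd k
    rwa [Real.dist_eq] at this
  refine Filter.mem_of_superset (Metric.ball_mem_nhds x hδ) ?_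
  intro y hy
  have hyb : ∀ k, |y k - x k| < δ := by
    intro k
    rw [Metric.mem_ball, dist_pi_lt_iff hδ] at hy
    have := hy k
    rwa [Real.dist_eq] at this
  rw [Metric.mem_closure_iff]
  intro ε hε
  obtain ⟨z', w', a1, a2, a3, a4, a5⟩ := box hS h2 h3 h4 σ hf hs he hbox hw (hR _ hzR).1 hst hzb hyb
    hB hε
  refine ⟨_, ⟨_, ⟨(z', w'), ⟨(hR _ hzR).2 a2, a1, a3, a4⟩, rfl⟩, rfl⟩, ?_⟩
  rw [dist_comm, dist_pi_lt_iff hε]
  intro k
  rw [Real.dist_eq]
  exact a5 k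

/-- **Components.** -/
theorem comp {S : Set ((Fin 2 → ℝ) × ℝ)} (hSc : IsPreconnected S)
    (hSon : ∀ T ∈ S, OnCover (map σ (C e * f)) T ∧ T.2 ≠ 0)
    (hne : (S ∩ closure (rp σ (RS f R))).Nonempty) : S ⊆ closure (rp σ (RB f R B)) := by
  set D := closure ((fun S : (Fin 2 → ℝ) × ℝ => S.1) '' rp σ (RB f R B)) with hD
  set D' := closure ((fun S : (Fin 2 → ℝ) × ℝ => S.1) '' rp σ (RS f R)) with hD'
  have hDD : D ⊆ D' := closure_mono (Set.image_mono (by
    rintro _ ⟨Q, hQ, rfl⟩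
    exact ⟨Q, ⟨hQ.1, hQ.2.1, hQ.2.2.1⟩, rfl⟩))
  have hop : ∀ x ∈ D', 0 < eval x (map σ (C e * f)) → x ∈ interior D := fun x hx hp =>
    mem_interior_iff_mem_nhds.2 (open_at hS h2 h3 h4 σ hf hs he hR hB hx hp)
  set S' := (fun S : (Fin 2 → ℝ) × ℝ => S.1) '' S with hS'
  have hSc' : IsPreconnected S' := hSc.image _ continuous_fst.continuousOn
  have hpos : ∀ x ∈ S', 0 < eval x (map σ (C e * f)) := by
    rintro _ ⟨T, hT, rfl⟩
    obtain ⟨h1, h2⟩ := hSon T hT
    have h1 : T.2 ^ 2 = eval T.1 (map σ (C e * f)) := h1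
    show 0 < eval T.1 (map σ (C e * f))
    rw [← h1]
    positivity
  have hsub : S' ⊆ interior D := by
    rcases hSc'.subset_or_subset isOpen_interior isClosed_closure.isOpen_compl
      (Set.disjoint_compl_right_iff_subset.mpr interior_subset) (fun x hx => by
        by_cases hxD : x ∈ D
        · exact Or.inl (hop x (hDD hxD) (hpos x hx))
        · exact Or.inr hxD) with h | h
    · exact h
    · exfalso
      obtain ⟨T, hT1, hT2⟩ := hne
      have h5 : T.1 ∈ D' := image_closure_subset_closure_image continuous_fst ⟨T, hT2, rfl⟩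
      exact h ⟨T, hT1, rfl⟩ (interior_subset (hop _ h5 (hpos _ ⟨T, hT1, rfl⟩)))
  rintro ⟨x, y⟩ hT
  have hx : x ∈ D := interior_subset (hsub ⟨_, hT, rfl⟩)
  have hy : y ^ 2 = eval x (map σ (C e * f)) := (hSon _ hT).1
  have hcont : Continuous fun x : Fin 2 → ℝ => Real.sqrt (eval x (map σ (C e * f))) :=
    Real.continuous_sqrt.comp (continuous_eval _)
  rw [Metric.mem_closure_iff]
  intro ε hε
  obtain ⟨η, hη, hη1⟩ := Metric.continuous_iff.1 hcont x ε hε
  obtain ⟨_, ⟨_, ⟨⟨z, w⟩, ⟨hzR, hw, hst, hzB⟩, rfl⟩, rfl⟩, hd⟩ :=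
    Metric.mem_closure_iff.1 hx (min ε η) (lt_min hε hη)
  have hon : w ^ 2 = eval z (C e * f) := (hR _ hzR).1
  have hd1 : dist (fun k => σ (z k)) x < min ε η := by rw [dist_comm]; exact hd
  have h6 := hη1 _ (hd1.trans_le (min_le_right _ _))
  have h7 : Real.sqrt (eval (fun k => σ (z k)) (map σ (C e * f))) = |σ w| := by
    rw [← onX_map' σ hon, Real.sqrt_sq_eq_abs]
  have h8 : Real.sqrt (eval x (map σ (C e * f))) = |y| := by
    rw [← hy, Real.sqrt_sq_eq_abs]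
  rw [h7, h8, Real.dist_eq] at h6
  -- the sign
  obtain ⟨w', hw', hw'0, hw'R⟩ : ∃ w', |σ w' - y| < ε ∧ w' ≠ 0 ∧ (z, w') ∈ R := by
    have hneg : (z, -w) ∈ R := (hR _ hzR).2 (odds_neg hon)
    rcases le_total 0 y with hy0 | hy0
    · rw [abs_of_nonneg hy0] at h6
      rcases le_total 0 (σ w) with hw0 | hw0
      · rw [abs_of_nonneg hw0] at h6
        exact ⟨w, h6, hw, hzR⟩
      · rw [abs_of_nonpos hw0] at h6
        exact ⟨-w, by rw [map_neg]; exact h6, neg_ne_zero.2 hw, hneg⟩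
    · rw [abs_of_nonpos hy0] at h6
      rcases le_total 0 (σ w) with hw0 | hw0
      · rw [abs_of_nonneg hw0] at h6
        refine ⟨-w, ?_, neg_ne_zero.2 hw, hneg⟩
        rw [map_neg]
        have e1 : -σ w - y = -(σ w - -y) := by ring
        rw [e1, abs_neg]
        exact h6
      · rw [abs_of_nonpos hw0] at h6
        refine ⟨w, ?_, hw, hzR⟩
        have e1 : σ w - y = -(-σ w - -y) := by ring
        rw [e1, abs_neg]
        exact h6
  refine ⟨_, ⟨(z, w'), ⟨hw'R, hw'0, hst, hzB⟩, rfl⟩, ?_⟩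
  rw [Prod.dist_eq, max_lt_iff]
  refine ⟨hd.trans_le (min_le_left _ _), ?_⟩
  rw [dist_comm, Real.dist_eq]
  exact hw'

end

end Pool.Agent.U199.ZR
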