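import Pool.Agent.U199.ZR.C

/-!
# Smooth real points of the branch curve
-/

set_option autoImplicit false
set_option linter.unusedSectionVars false
set_option linter.unusedVariables false

open MvPolynomial Pool.Agent.Y720.MZ Filter Topology

namespace Pool.Agent.U199.ZR

open Pool.Agent.Q35.ZC
open Pool.Agent.Q35.TT (SmoothN TorN Tor TorT lc af bq bd tay ND S_TWS S_SPE S_TBN)
open Pool.Agent.Q222.TT.Opn (lc_line eval_lc rst_coef dd_single)

section smooth

variable {K : Type} [Field K] [CharZero K]

theorem dd_single' {F : Type} [Field F] (f : MvPolynomial (Fin 2) F) (i : Fin 2) :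
    dd f (Pi.single i 1) = pderiv i f := by
  rw [dd, Finset.sum_eq_single i]
  · rw [Pi.single_eq_same, C_1, one_mul]
  · intro b _ hb
    rw [Pi.single_eq_of_ne hb, C_0, zero_mul]
  · intro h
    exact absurd (Finset.mem_univ i) h

/-- the branch curve is smooth in the affine part -/
theorem smooth_aff {f : MvPolynomial (Fin 2) K} (hf : ∀ j, f.degreeOf j ≤ 4) (hs : SmoothN f)
    (y : Fin 2 → AlgebraicClosure K) (h0 : aeval y f = 0) (h1 : ∀ i, aeval y (pderiv i f) = 0) :
    False := by
  set f' := map (algebraMap K (AlgebraicClosure K)) f with hf'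
  have hd : ∀ j, f'.degreeOf j ≤ 4 := fun j => degreeOf_map_le _ (hf j)
  obtain ⟨i, k, hik⟩ := hs (af y) (fun j hj => by
    have := congrFun hj 0
    simp [af] at this)
  have e0 : eval y f' = 0 := by rw [hf', eval_map, ← aeval_def]; exact h0
  have e1 : eval y (pderiv i f') = 0 := by
    rw [hf', pderiv_map, eval_map, ← aeval_def]; exact h1 i
  have e2 : tay (lc f' (af y) i) (y i) 0 = 0 := by
    rw [← (rst_coef hd y i).1]
    have h3 : cq f' y (Pi.single i 1) 0 = (Polynomial.derivative (rst f' y (Pi.single i 1))).eval 0 := by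
      rw [← Polynomial.coeff_zero_eq_eval_zero, Polynomial.coeff_derivative, cq]
      simp
    rw [h3, rst_deriv, dd_single', rst_eval]
    simpa using e1
  have e3 : bq (lc f' (af y) i) ![1, y i] = 0 := by
    rw [← eval_lc hd y i]
    exact e0
  apply hik
  have e4 : ∀ (a : Fin 5 → AlgebraicClosure K) (s : AlgebraicClosure K), bq a ![1, s] = 0 →
      tay a s 0 = 0 → ∀ k, bd a ![1, s] k = 0 := by
    intro a s h5 h6 k
    have h7 : bd a ![1, s] 1 = tay a s 0 := by
      simp [bd, tay]
    have h8 : bd a ![1, s] 0 = 4 * bq a ![1, s] - s * tay a s 0 := by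
      simp [bd, tay, bq]
      ring
    fin_cases k
    · change bd a ![1, s] 0 = 0
      rw [h8, h5, h6]; ring
    · change bd a ![1, s] 1 = 0
      rw [h7, h6]
  exact e4 _ _ e3 e2 k

/-- the branch curve is smooth at the real points -/
theorem real_smooth {f : MvPolynomial (Fin 2) K} (hf : ∀ j, f.degreeOf j ≤ 4) (hs : SmoothN f)
    (σ : K →+* ℝ) (x : Fin 2 → ℝ) (h0 : eval x (map σ f) = 0) :
    ∃ k, eval x (map σ (pderiv k f)) ≠ 0 := by
  by_contra hcon
  push Not at hcon
  set I : Ideal (MvPolynomial (Fin 2) K) := Ideal.span {f, pderiv 0 f, pderiv 1 f} with hI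
  have hI1 : I = ⊤ := by
    by_contra hne
    obtain ⟨J, hJ, hIJ⟩ := Ideal.exists_le_maximal I hne
    obtain ⟨y, hy⟩ := eq_vanishingIdeal_singleton_of_isMaximal (AlgebraicClosure K) hJ
    have hz : ∀ p ∈ I, aeval y p = 0 := by
      intro p hp
      have h1 := hIJ hp
      rw [hy, mem_vanishingIdeal_singleton_iff] at h1
      exact h1
    refine smooth_aff hf hs y (hz _ (Ideal.subset_span (by simp))) fun i => ?_
    fin_cases i
    · exact hz _ (Ideal.subset_span (by simp))
    · exact hz _ (Ideal.subset_span (by simp))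
  have h1 : I ≤ RingHom.ker ((eval x).comp (map σ)) := by
    rw [hI, Ideal.span_le]
    intro p hp
    simp only [Set.mem_insert_iff, Set.mem_singleton_iff] at hp
    rcases hp with rfl | rfl | rfl
    · exact h0
    · exact hcon 0
    · exact hcon 1
  rw [hI1] at h1
  have h2 := h1 (Submodule.mem_top (x := (1 : MvPolynomial (Fin 2) K)))
  rw [RingHom.mem_ker, map_one] at h2
  exact one_ne_zero h2

end smooth

section bdry

/-- the mean value theorem in the direction of a coordinate -/
theorem mvt (G : MvPolynomial (Fin 2) ℝ) (b : Fin 2 → ℝ) (k : Fin 2) (u : ℝ) :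
    ∃ ξ, (ξ ∈ Set.uIcc (b k) u) ∧ eval (Function.update b k u) G - eval b G =
      eval (Function.update b k ξ) (pderiv k G) * (u - b k) := by
  have key : ∀ t, eval (Function.update b k t) G = (rst G b (Pi.single k 1)).eval (t - b k) := by
    intro t
    rw [rst_eval]
    congr 2
    funext a
    by_cases h : a = k
    · subst h
      simp
    · simp [h]
  have hder : ∀ t, HasDerivAt (fun t => eval (Function.update b k t) G)
      (eval (Function.update b k t) (pderiv k G)) t := by
    intro t
    have h1 : (fun t => eval (Function.update b k t) G) =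
        fun t => (rst G b (Pi.single k 1)).eval (t - b k) := funext key
    rw [h1]
    have h2 := ((rst G b (Pi.single k 1)).hasDerivAt (t - b k)).comp t ((hasDerivAt_id t).sub_const (b k))
    have h3 : (Polynomial.derivative (rst G b (Pi.single k 1))).eval (t - b k) * 1 =
        eval (Function.update b k t) (pderiv k G) := by
      rw [mul_one, rst_deriv, dd_single', rst_eval]
      congr 2
      funext a
      by_cases h : a = k
      · subst h
        simp
      · simp [h]
    rw [← h3]
    exact h2
  have hb : eval b G = eval (Function.update b k (b k)) G := by rw [Function.update_eq_self]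
  rw [hb]
  rcases lt_trichotomy (b k) u with h | h | h
  · obtain ⟨ξ, h1, h2⟩ := exists_hasDerivAt_eq_slope _ _ h
      (fun t _ => (hder t).continuousAt.continuousWithinAt) (fun t _ => hder t)
    refine ⟨ξ, ?_, ?_⟩
    · rw [Set.uIcc_of_le h.le]
      exact ⟨h1.1.le, h1.2.le⟩
    · rw [h2, div_mul_cancel₀ _ (sub_ne_zero.2 h.ne')]
  · subst h
    exact ⟨b k, Set.left_mem_uIcc, by ring⟩
  · obtain ⟨ξ, h1, h2⟩ := exists_hasDerivAt_eq_slope _ _ h
      (fun t _ => (hder t).continuousAt.continuousWithinAt) (fun t _ => hder t)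
    refine ⟨ξ, ?_, ?_⟩
    · rw [Set.uIcc_of_ge h.le]
      exact ⟨h1.1.le, h1.2.le⟩
    · rw [h2]
      have h3 : b k - u ≠ 0 := sub_ne_zero.2 h.ne'
      field_simp
      ring

end bdry

end Pool.Agent.U199.ZR
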