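import Pool.Agent.U199.ZR.D

/-!
# The region `G > 0` near a smooth point of its boundary
-/

set_option autoImplicit false
set_option linter.unusedSectionVars false
set_option linter.unusedVariables false

open MvPolynomial Filter Topology

namespace Pool.Agent.U199.ZR

theorem uicc_near {a b x ξ δ : ℝ} (h : ξ ∈ Set.uIcc a b) (ha : |a - x| < δ) (hb : |b - x| < δ) :
    |ξ - x| < δ := by
  rw [abs_lt] at *
  rcases le_total a b with hab | hab
  · rw [Set.uIcc_of_le hab] at h
    exact ⟨by linarith [h.1], by linarith [h.2]⟩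
  · rw [Set.uIcc_of_ge hab] at h
    exact ⟨by linarith [h.1], by linarith [h.2]⟩

/-- **The region near a smooth point of the boundary.** -/
theorem bdry (G : MvPolynomial (Fin 2) ℝ) (x : Fin 2 → ℝ) (hx : eval x G = 0) {k : Fin 2}
    (hk : eval x (pderiv k G) ≠ 0) : ∃ W : Set (Fin 2 → ℝ), IsOpen W ∧ x ∈ W ∧
      (∀ b ∈ W, ∀ b' ∈ W, 0 < eval b G → 0 < eval b' G →
        ∃ P, IsPreconnected P ∧ b ∈ P ∧ b' ∈ P ∧ ∀ p ∈ P, 0 < eval p G) ∧
      ∀ b ∈ W, eval b G = 0 → b ∈ closure {b' | b' ∈ W ∧ 0 < eval b' G} := by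
  -- the other direction
  obtain ⟨j, hj⟩ : ∃ j : Fin 2, ∀ l : Fin 2, l ≠ k → l = j := by
    revert k
    intro k _
    fin_cases k
    · exact ⟨1, by decide⟩
    · exact ⟨0, by decide⟩
  -- the sign
  obtain ⟨s, hs, hsx⟩ : ∃ s : ℝ, s * s = 1 ∧ 0 < s * eval x (pderiv k G) := by
    rcases lt_or_gt_of_ne hk with h | h
    · exact ⟨-1, by norm_num, by linarith⟩
    · exact ⟨1, by norm_num, by linarith⟩
  have hs1 : |s| = 1 := by
    have h1 : |s| * |s| = 1 := by rw [← abs_mul, hs, abs_one]
    nlinarith [abs_nonneg s]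
  -- the derivative has a constant sign near `x`
  obtain ⟨δ, hδ, hball⟩ := Metric.isOpen_iff.mp (isOpen_lt continuous_const
    (show Continuous fun b : Fin 2 → ℝ => s * eval b (pderiv k G) from
      continuous_const.mul (continuous_eval _))) x hsx
  have hder : ∀ b : Fin 2 → ℝ, (∀ l, |b l - x l| < δ) → 0 < s * eval b (pderiv k G) := by
    intro b hb
    have h1 : b ∈ Metric.ball x δ := by
      rw [Metric.mem_ball, dist_pi_lt_iff hδ]
      intro l
      rw [Real.dist_eq]
      exact hb l
    exact hball h1
  -- moving up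
  have hup : ∀ b : Fin 2 → ℝ, (∀ l, |b l - x l| < δ) → ∀ v : ℝ, 0 ≤ v →
      |b k + s * v - x k| < δ → eval b G ≤ eval (Function.update b k (b k + s * v)) G ∧
        (0 < v → eval b G < eval (Function.update b k (b k + s * v)) G) := by
    intro b hb v hv hv1
    obtain ⟨ξ, h1, h2⟩ := mvt G b k (b k + s * v)
    have h3 : 0 < s * eval (Function.update b k ξ) (pderiv k G) := by
      apply hder
      intro l
      by_cases h : l = k
      · subst h
        rw [Function.update_self]
        exact uicc_near h1 (hb l) hv1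
      · rw [Function.update_of_ne h]
        exact hb l
    have h4 : eval (Function.update b k (b k + s * v)) G - eval b G =
        (s * eval (Function.update b k ξ) (pderiv k G)) * v := by
      rw [h2]; ring
    constructor
    · nlinarith
    · intro hv0
      nlinarith [mul_pos h3 hv0]
  -- the upper edge
  set t1 : ℝ := x k + s * (δ / 2) with ht1
  have hx1 : 0 < eval (Function.update x k t1) G := by
    have h1 := (hup x (fun l => by simpa using hδ) (δ / 2) (by linarith) (by
      have e1 : x k + s * (δ / 2) - x k = s * (δ / 2) := by ring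
      rw [e1, abs_mul, hs1, one_mul, abs_of_pos (by linarith)]
      linarith)).2 (by linarith)
    rw [hx] at h1
    exact h1
  have hcup : Continuous fun b : Fin 2 → ℝ => Function.update b k t1 :=
    continuous_id.update k continuous_const
  obtain ⟨δ', hδ', hball'⟩ := Metric.isOpen_iff.mp (isOpen_lt continuous_const
    (show Continuous fun b : Fin 2 → ℝ => eval (Function.update b k t1) G from
      (continuous_eval G).comp hcup)) x hx1
  set r : ℝ := min δ' (δ / 2) with hr
  have hr0 : 0 < r := lt_min hδ' (by linarith)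
  have hW : ∀ b, b ∈ Metric.ball x r ↔ ∀ l, |b l - x l| < r := by
    intro b
    rw [Metric.mem_ball, dist_pi_lt_iff hr0]
    rfl
  have hWδ : ∀ b ∈ Metric.ball x r, ∀ l, |b l - x l| < δ / 2 := fun b hb l =>
    ((hW b).1 hb l).trans_le (min_le_right _ _)
  have hedge : ∀ b ∈ Metric.ball x r, 0 < eval (Function.update b k t1) G := fun b hb =>
    hball' (Metric.ball_subset_ball (min_le_left _ _) hb)
  -- the vertical segments
  have hvert : ∀ b ∈ Metric.ball x r, 0 < eval b G → ∃ V : Set (Fin 2 → ℝ), IsPreconnected V ∧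
      b ∈ V ∧ Function.update b k t1 ∈ V ∧ ∀ p ∈ V, 0 < eval p G := by
    intro b hb hbG
    have hbk := hWδ b hb k
    have hsb : |s * (x k - b k)| < δ / 2 := by
      rw [abs_mul, hs1, one_mul, abs_sub_comm]
      exact hbk
    rw [abs_lt] at hsb
    set L : ℝ := δ / 2 + s * (x k - b k) with hL
    have hL0 : 0 ≤ L := by rw [hL]; linarith
    refine ⟨(fun v => Function.update b k (b k + s * v)) '' Set.Icc 0 L,
      isPreconnected_Icc.image _ ?_, ⟨0, ⟨le_rfl, hL0⟩, ?_⟩, ⟨L, ⟨hL0, le_rfl⟩, ?_⟩, ?_⟩
    · exact (continuous_const.update k (by fun_prop)).continuousOn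
    · simp
    · have e1 : b k + s * L = t1 := by
        rw [hL, ht1]
        linear_combination (x k - b k) * hs
      simp only [e1]
    · rintro _ ⟨v, hv, rfl⟩
      refine lt_of_lt_of_le hbG (hup b (fun l => (hWδ b hb l).trans (by linarith)) v hv.1 ?_).1
      have e1 : b k + s * v - x k = s * (v - s * (x k - b k)) := by
        linear_combination (-(b k - x k)) * hs
      rw [e1, abs_mul, hs1, one_mul, abs_lt]
      have h1 := hv.1
      have h2 := hv.2
      rw [hL] at h2
      constructor <;> linarith
  refine ⟨Metric.ball x r, Metric.isOpen_ball, Metric.mem_ball_self hr0, ?_, ?_⟩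
  · intro b hb b' hb' hbG hbG'
    obtain ⟨V, a1, a2, a3, a4⟩ := hvert b hb hbG
    obtain ⟨V', c1, c2, c3, c4⟩ := hvert b' hb' hbG'
    -- the horizontal segment
    set H : Set (Fin 2 → ℝ) := (fun u : ℝ => Function.update (b + u • (b' - b)) k t1) '' Set.Icc 0 1
      with hH
    have hHc : IsPreconnected H := by
      refine isPreconnected_Icc.image _ ?_
      exact (hcup.comp (by fun_prop)).continuousOn
    have hH1 : Function.update b k t1 ∈ H := ⟨0, ⟨le_rfl, zero_le_one⟩, by simp⟩
    have hH2 : Function.update b' k t1 ∈ H := ⟨1, ⟨zero_le_one, le_rfl⟩, by simp⟩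
    have hH3 : ∀ p ∈ H, 0 < eval p G := by
      rintro _ ⟨u, hu, rfl⟩
      refine hedge _ ?_
      have h1 := (convex_ball x r) hb hb' (show 0 ≤ 1 - u by linarith [hu.2]) hu.1 (by ring)
      have e1 : (1 - u) • b + u • b' = b + u • (b' - b) := by
        module
      rw [e1] at h1
      exact h1
    refine ⟨V ∪ H ∪ V', ?_, Or.inl (Or.inl a2), Or.inr c2, ?_⟩
    · exact IsPreconnected.union _ (Or.inr hH2) c3 (IsPreconnected.union _ a3 hH1 a1 hHc) c1
    · rintro p ((hp | hp) | hp)
      · exact a4 p hp
      · exact hH3 p hp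
      · exact c4 p hp
  · intro b hb hb0
    rw [Metric.mem_closure_iff]
    intro ε hε
    obtain ⟨ρ, hρ, hρ1⟩ := Metric.isOpen_iff.1 Metric.isOpen_ball b hb
    set v : ℝ := min ε ρ / 2 with hv
    have hm : 0 < min ε ρ := lt_min hε hρ
    have hv0 : 0 < v := by rw [hv]; linarith
    have hd : dist (Function.update b k (b k + s * v)) b = v := by
      rw [dist_eq_norm]
      have e1 : Function.update b k (b k + s * v) - b = Pi.single k (s * v) := by
        funext l
        by_cases h : l = k
        · subst h
          simp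
        · simp [h]
      rw [e1, Pi.norm_single, Real.norm_eq_abs, abs_mul, hs1, one_mul, abs_of_pos hv0]
    have hin : Function.update b k (b k + s * v) ∈ Metric.ball x r := by
      apply hρ1
      rw [Metric.mem_ball, hd, hv]
      have := min_le_right ε ρ
      linarith
    refine ⟨Function.update b k (b k + s * v), ⟨hin, ?_⟩, ?_⟩
    · have h1 := (hup b (fun l => (hWδ b hb l).trans (by linarith)) v hv0.le (by
        have h2 := hWδ _ hin k
        rw [Function.update_self] at h2
        linarith)).2 hv0
      rw [hb0] at h1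
      exact h1
    · rw [dist_comm, hd, hv]
      have := min_le_left ε ρ
      linarith

end Pool.Agent.U199.ZR
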