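import Pool.Agent.U199.ZR.E

/-!
# Connected components of the real points of `w² = e f(x, y)`, with the branch curve
-/

set_option autoImplicit false
set_option linter.unusedSectionVars false
set_option linter.unusedVariables false

open MvPolynomial Pool.Agent.Y720.MZ Filter Topology

namespace Pool.Agent.U199.ZR

open Pool.Agent.Q35.ZC
open Pool.Agent.Q35.TT (SmoothN TorN Tor TorT lc af bq tay ND S_TWS S_SPE S_TBN)

variable {K : Type} [Field K] [NumberField K]

/-- the projection of the real points -/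
abbrev pr (σ : K →+* ℝ) (R : Set ((Fin 2 → K) × K)) : Set (Fin 2 → ℝ) :=
  (fun S : (Fin 2 → ℝ) × ℝ => S.1) '' rp σ R

section

variable (hS : S_STEP) (h2 : S_TWS) (h3 : S_SPE) (h4 : S_TBN) (σ : K →+* ℝ)
  {f : MvPolynomial (Fin 2) K} (hf : ∀ j, f.degreeOf j ≤ 4) (hs : SmoothN f) {e : K} (he : e ≠ 0)
  {R : Set ((Fin 2 → K) × K)} (hR : Odd' (C e * f) R) {B : Set K} (hB : B.Finite)

include hS h2 h3 h4 hf hs he hR hB

theorem conn_D {P : Set (Fin 2 → ℝ)} (hP : IsPreconnected P)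
    (hpos : ∀ x ∈ P, 0 < eval x (map σ (C e * f)))
    (hne : (P ∩ closure (pr σ (RS f R))).Nonempty) : P ⊆ closure (pr σ (RB f R B)) := by
  have hDD : closure (pr σ (RB f R B)) ⊆ closure (pr σ (RS f R)) := closure_mono (Set.image_mono (by
    rintro _ ⟨Q, hQ, rfl⟩
    exact ⟨Q, ⟨hQ.1, hQ.2.1, hQ.2.2.1⟩, rfl⟩))
  have hop : ∀ x ∈ closure (pr σ (RS f R)), 0 < eval x (map σ (C e * f)) →
      x ∈ interior (closure (pr σ (RB f R B))) := fun x hx hp =>
    mem_interior_iff_mem_nhds.2 (open_at hS h2 h3 h4 σ hf hs he hR hB hx hp)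
  rcases hP.subset_or_subset isOpen_interior isClosed_closure.isOpen_compl
    (Set.disjoint_compl_right_iff_subset.mpr interior_subset) (fun x hx => by
      by_cases hxD : x ∈ closure (pr σ (RB f R B))
      · exact Or.inl (hop x (hDD hxD) (hpos x hx))
      · exact Or.inr hxD) with h | h
  · exact h.trans interior_subset
  · exfalso
    obtain ⟨x, hx1, hx2⟩ := hne
    exact h hx1 (interior_subset (hop _ hx2 (hpos _ hx1)))

omit hS h2 h3 h4 hf hs he hB in
theorem lift_D {x : Fin 2 → ℝ} {y : ℝ} (hx : x ∈ closure (pr σ (RB f R B)))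
    (hy : y ^ 2 = eval x (map σ (C e * f))) : (x, y) ∈ closure (rp σ (RB f R B)) := by
  have hcont : Continuous fun x : Fin 2 → ℝ => Real.sqrt (eval x (map σ (C e * f))) :=
    Real.continuous_sqrt.comp (continuous_eval _)
  rw [Metric.mem_closure_iff]
  intro ε hε
  obtain ⟨η, hη, hη1⟩ := Metric.continuous_iff.1 hcont x ε hε
  obtain ⟨_, ⟨_, ⟨⟨z, w⟩, ⟨hzR, hw, hst, hzB⟩, rfl⟩, rfl⟩, hd⟩ :=
    Metric.mem_closure_iff.1 hx (min ε η) (lt_min hε hη)
  have hon : w ^ 2 = eval z (C e * f) := (hR _ hzR).1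
  have hd1 : dist (fun k => σ (z k)) x < min ε η := by rw [dist_comm]; exact hd
  have h6 := hη1 _ (hd1.trans_le (min_le_right _ _))
  have h7 : Real.sqrt (eval (fun k => σ (z k)) (map σ (C e * f))) = |σ w| := by
    rw [← onX_map' σ hon, Real.sqrt_sq_eq_abs]
  have h8 : Real.sqrt (eval x (map σ (C e * f))) = |y| := by
    rw [← hy, Real.sqrt_sq_eq_abs]
  rw [h7, h8, Real.dist_eq] at h6
  -- the sign
  obtain ⟨w', hw', hw'0, hw'R⟩ : ∃ w', |σ w' - y| < ε ∧ w' ≠ 0 ∧ (z, w') ∈ R := by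
    have hneg : (z, -w) ∈ R := (hR _ hzR).2 (odds_neg hon)
    rcases le_total 0 y with hy0 | hy0
    · rw [abs_of_nonneg hy0] at h6
      rcases le_total 0 (σ w) with hw0 | hw0
      · rw [abs_of_nonneg hw0] at h6
        exact ⟨w, h6, hw, hzR⟩
      · rw [abs_of_nonpos hw0] at h6
        exact ⟨-w, by rw [map_neg]; exact h6, neg_ne_zero.2 hw, hneg⟩
    · rw [abs_of_nonpos hy0] at h6
      rcases le_total 0 (σ w) with hw0 | hw0
      · rw [abs_of_nonneg hw0] at h6
        refine ⟨-w, ?_, neg_ne_zero.2 hw, hneg⟩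
        rw [map_neg]
        have e1 : -σ w - y = -(σ w - -y) := by ring
        rw [e1, abs_neg]
        exact h6
      · rw [abs_of_nonpos hw0] at h6
        refine ⟨w, ?_, hw, hzR⟩
        have e1 : σ w - y = -(-σ w - -y) := by ring
        rw [e1, abs_neg]
        exact h6
  refine ⟨_, ⟨(z, w'), ⟨hw'R, hw'0, hst, hzB⟩, rfl⟩, ?_⟩
  rw [Prod.dist_eq, max_lt_iff]
  refine ⟨hd.trans_le (min_le_left _ _), ?_⟩
  rw [dist_comm, Real.dist_eq]
  exact hw'

/-- **The closure is open in the real points.** -/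
theorem open_cover {T : (Fin 2 → ℝ) × ℝ} (hT : T ∈ closure (rp σ (RS f R)))
    (hon : OnCover (map σ (C e * f)) T) : ∃ N : Set ((Fin 2 → ℝ) × ℝ), IsOpen N ∧ T ∈ N ∧
      ∀ T' ∈ N, OnCover (map σ (C e * f)) T' → T' ∈ closure (rp σ (RB f R B)) := by
  obtain ⟨x, y⟩ := T
  have hy : y ^ 2 = eval x (map σ (C e * f)) := hon
  have hx : x ∈ closure (pr σ (RS f R)) :=
    image_closure_subset_closure_image continuous_fst ⟨(x, y), hT, rfl⟩
  by_cases hy0 : y = 0
  · rw [hy0, zero_pow two_ne_zero] at hy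
    have e1 : map σ (C e * f) = C (σ e) * map σ f := by rw [map_mul, map_C]
    have hx0 : eval x (map σ f) = 0 := by
      rw [e1, map_mul, eval_C] at hy
      exact (mul_eq_zero.1 hy.symm).resolve_left ((map_ne_zero σ).2 he)
    obtain ⟨k, hk⟩ := real_smooth hf hs σ x hx0
    obtain ⟨W, hWo, hxW, hW1, hW2⟩ := bdry (map σ (C e * f)) x hy.symm (k := k) (by
      rw [e1, pderiv_C_mul, pderiv_map, map_mul, eval_C]
      exact mul_ne_zero ((map_ne_zero σ).2 he) hk)
    -- a point of the set in `W`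
    obtain ⟨_, hbW, ⟨_, ⟨⟨z, w⟩, hzR, rfl⟩, rfl⟩⟩ := mem_closure_iff.1 hx W hWo hxW
    have hb : 0 < eval (fun k => σ (z k)) (map σ (C e * f)) := by
      rw [← onX_map' σ (hR _ hzR.1).1]
      have := (map_ne_zero σ).2 hzR.2.1
      positivity
    have hpos : ∀ b ∈ W, 0 < eval b (map σ (C e * f)) → b ∈ closure (pr σ (RB f R B)) := by
      intro b hb1 hb2
      obtain ⟨P, p1, p2, p3, p4⟩ := hW1 _ hbW b hb1 hb hb2
      exact conn_D hS h2 h3 h4 σ hf hs he hR hB p1 p4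
        ⟨_, p2, subset_closure ⟨_, ⟨(z, w), hzR, rfl⟩, rfl⟩⟩ p3
    refine ⟨(fun T => T.1) ⁻¹' W, hWo.preimage continuous_fst, hxW, ?_⟩
    rintro ⟨x', y'⟩ hT' hon'
    have hy' : y' ^ 2 = eval x' (map σ (C e * f)) := hon'
    refine lift_D σ hR ?_ hy'
    rcases (show 0 ≤ eval x' (map σ (C e * f)) by rw [← hy']; positivity).lt_or_eq with h | h
    · exact hpos _ hT' h
    · have h5 := hW2 x' hT' h.symm
      refine closure_minimal ?_ isClosed_closure h5
      rintro b ⟨hb1, hb2⟩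
      exact hpos b hb1 hb2
  · have hp : 0 < eval x (map σ (C e * f)) := by
      rw [← hy]; positivity
    have h5 := open_at hS h2 h3 h4 σ hf hs he hR hB hx hp
    refine ⟨(fun T => T.1) ⁻¹' interior (closure (pr σ (RB f R B))),
      isOpen_interior.preimage continuous_fst, mem_interior_iff_mem_nhds.2 h5, ?_⟩
    rintro ⟨x', y'⟩ hT' hon'
    exact lift_D σ hR (interior_subset hT') hon'

/-- **Components, with the branch curve.** -/
theorem comp0 {S : Set ((Fin 2 → ℝ) × ℝ)} (hSc : IsPreconnected S)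
    (hSon : ∀ T ∈ S, OnCover (map σ (C e * f)) T)
    (hne : (S ∩ closure (rp σ (RS f R))).Nonempty) : S ⊆ closure (rp σ (RB f R B)) := by
  have hZZ : closure (rp σ (RB f R B)) ⊆ closure (rp σ (RS f R)) := closure_mono (by
    rintro _ ⟨Q, hQ, rfl⟩
    exact ⟨Q, ⟨hQ.1, hQ.2.1, hQ.2.2.1⟩, rfl⟩)
  have hloc := fun {T} (hT : T ∈ closure (rp σ (RS f R))) (hon : OnCover (map σ (C e * f)) T) =>
    open_cover hS h2 h3 h4 σ hf hs he hR hB hT hon
  set U : Set ((Fin 2 → ℝ) × ℝ) := ⋃₀ {N | IsOpen N ∧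
    ∀ T' ∈ N, OnCover (map σ (C e * f)) T' → T' ∈ closure (rp σ (RB f R B))} with hU
  have hUo : IsOpen U := isOpen_sUnion fun N hN => hN.1
  rw [isPreconnected_iff_subset_of_disjoint] at hSc
  rcases hSc U (closure (rp σ (RB f R B)))ᶜ hUo isClosed_closure.isOpen_compl (fun T hT => by
      by_cases h : T ∈ closure (rp σ (RB f R B))
      · obtain ⟨N, n1, n2, n3⟩ := hloc (hZZ h) (hSon T hT)
        exact Or.inl ⟨N, ⟨n1, n3⟩, n2⟩
      · exact Or.inr h) (by
      rw [Set.eq_empty_iff_forall_notMem]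
      rintro T ⟨hT, ⟨N, ⟨n1, n3⟩, n2⟩, hT3⟩
      exact hT3 (n3 T n2 (hSon T hT))) with h | h
  · intro T hT
    obtain ⟨N, ⟨n1, n3⟩, n2⟩ := h hT
    exact n3 T n2 (hSon T hT)
  · exfalso
    obtain ⟨T, hT1, hT2⟩ := hne
    obtain ⟨N, n1, n2, n3⟩ := hloc hT2 (hSon T hT1)
    exact h hT1 (n3 T n2 (hSon T hT1))

end

end Pool.Agent.U199.ZR
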