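import Pool.Agent.U199.ZR.F
import Pool.Agent.Q13.TB.Exf

/-!
# Central points over real extensions
-/

set_option autoImplicit false
set_option linter.unusedSectionVars false
set_option linter.unusedVariables false

open MvPolynomial Pool.Agent.Y720.MZ Filter Topology

namespace Pool.Agent.U199.ZR

open Pool.Agent.Q35.ZC
open Pool.Agent.Q35.TT (SmoothN TorN Tor TorT lc af bq tay ND S_TWS S_SPE S_TBN pq)

section tangent

variable {K : Type} [Field K] [CharZero K]

/-- the line through `z` in the direction `i` is tangent to the curve `f = 0` -/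
def Tg (f : MvPolynomial (Fin 2) K) (z : Fin 2 → K) (i : Fin 2) : Prop :=
  ¬ IsCoprime (rst f z (Pi.single i 1)) (rst (pderiv i f) z (Pi.single i 1))

theorem single_map2 {F : Type} [Field F] (φ : K →+* F) (i : Fin 2) :
    (fun a => φ ((Pi.single i 1 : Fin 2 → K) a)) = Pi.single i 1 := by
  funext a
  by_cases h : a = i
  · subst h; simp
  · rw [Pi.single_eq_of_ne h, Pi.single_eq_of_ne h, map_zero]

theorem rst_map2 {F : Type} [Field F] [CharZero F] (φ : K →+* F) (f : MvPolynomial (Fin 2) K)
    (z : Fin 2 → K) (i : Fin 2) : (rst f z (Pi.single i 1)).map φ =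
      rst (map φ f) (fun a => φ (z a)) (Pi.single i 1) := by
  rw [rst_map, single_map2]

theorem tg_map {F : Type} [Field F] [CharZero F] (φ : K →+* F) {f : MvPolynomial (Fin 2) K}
    {z : Fin 2 → K} {i : Fin 2} : Tg (map φ f) (fun a => φ (z a)) i ↔ Tg f z i := by
  unfold Tg
  rw [pderiv_map, ← rst_map2, ← rst_map2, Polynomial.isCoprime_map]

theorem tg_of_root {f : MvPolynomial (Fin 2) K} {z y : Fin 2 → K} {i : Fin 2}
    (h : ∀ k, k ≠ i → y k = z k) (h0 : eval y f = 0) (h1 : eval y (pderiv i f) = 0) : Tg f z i := by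
  rintro ⟨a, b, hab⟩
  have hy : z + (y i - z i) • (Pi.single i 1 : Fin 2 → K) = y := by
    funext k
    by_cases hk : k = i
    · subst hk; simp
    · simp [hk, h k hk]
  have h2 := congrArg (Polynomial.eval (y i - z i)) hab
  rw [Polynomial.eval_add, Polynomial.eval_mul, Polynomial.eval_mul, rst_eval, rst_eval, hy, h0, h1,
    mul_zero, mul_zero, add_zero, Polynomial.eval_one] at h2
  exact zero_ne_one h2

theorem tg_point {f : MvPolynomial (Fin 2) K} {z : Fin 2 → K} {i : Fin 2} (h : Tg f z i) :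
    ∃ y : Fin 2 → AlgebraicClosure K, (∀ k, k ≠ i → y k = toC K (z k)) ∧ aeval y f = 0 ∧
      aeval y (pderiv i f) = 0 := by
  unfold Tg at h
  rw [Polynomial.isCoprime_iff_aeval_ne_zero_of_isAlgClosed K (AlgebraicClosure K)] at h
  push Not at h
  obtain ⟨a, h0, h1⟩ := h
  have key : ∀ p : MvPolynomial (Fin 2) K, Polynomial.aeval a (rst p z (Pi.single i 1)) =
      aeval ((fun k => toC K (z k)) + a • (Pi.single i 1 : Fin 2 → AlgebraicClosure K)) p := by
    intro p
    rw [Polynomial.aeval_def, ← Polynomial.eval_map]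
    change ((rst p z (Pi.single i 1)).map (toC K)).eval a = _
    rw [rst_map2, rst_eval, aeval_def, eval_map]
  refine ⟨(fun k => toC K (z k)) + a • (Pi.single i 1 : Fin 2 → AlgebraicClosure K), ?_, ?_, ?_⟩
  · intro k hk
    simp [hk]
  · rw [← key]; exact h0
  · rw [← key]; exact h1

end tangent

section maps

variable {K L : Type} [Field K] [CharZero K] [Field L] [CharZero L] (φ : K →+* L)

theorem torN_map {f : MvPolynomial (Fin 2) K} {z : Fin 2 → K} {i : Fin 2} :
    TorN (map φ f) (fun a => φ (z a)) i ↔ TorN f z i := by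
  unfold TorN
  have h1 : lc (map φ f) (af fun a => φ (z a)) i = fun k => φ (lc f (af z) i k) := by
    funext k
    rw [Pool.Agent.Q13.TB.lc_map', Pool.Agent.Q13.TB.af_map']
  refine exists_congr fun N => and_congr_right fun _ => ?_
  rw [h1, Pool.Agent.Q13.TB.torT_map_iff]

theorem pq_map (a : Fin 5 → K) : pq (fun k => φ (a k)) = (pq a).map φ := by
  unfold pq
  rw [Polynomial.map_sum]
  refine Finset.sum_congr rfl fun i _ => ?_
  rw [Polynomial.map_mul, Polynomial.map_pow, Polynomial.map_C, Polynomial.map_X]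

theorem nd_map {g h : Fin 5 → K} : ND (fun k => φ (g k)) (fun k => φ (h k)) ↔ ND g h := by
  unfold Pool.Agent.Q35.TT.ND
  rw [pq_map, pq_map, ← Polynomial.map_pow, Polynomial.map_dvd_map', Polynomial.natDegree_map,
    Polynomial.natDegree_map]

theorem reg_map {f : MvPolynomial (Fin 2) K} {z : Fin 2 → K} {i j : Fin 2} (h : Reg f z i j) :
    Reg (map φ f) (fun a => φ (z a)) i j := by
  refine ⟨?_, ?_⟩
  · rw [line_map]
    exact genus_map φ h.1
  · have h1 : ∀ p : MvPolynomial (Fin 2) K, lc (map φ p) (af fun a => φ (z a)) i =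
        fun k => φ (lc p (af z) i k) := by
      intro p
      funext k
      rw [Pool.Agent.Q13.TB.lc_map', Pool.Agent.Q13.TB.af_map']
    rw [pderiv_map, h1, h1, nd_map]
    exact h.2

theorem start_map {f : MvPolynomial (Fin 2) K} {z : Fin 2 → K} (h : Start f z) :
    Start (map φ f) (fun a => φ (z a)) := by
  obtain ⟨i, j, hij, h1, h2⟩ := h
  exact ⟨i, j, hij, fun h3 => h1 ((torN_map φ).1 h3), reg_map φ h2⟩

end maps

/-- real extensions of number fields -/
theorem real_ext (K : Type) [Field K] [NumberField K] (τ : K →+* ℝ) (s : ℝ)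
    (hs : ∃ p : Polynomial K, p ≠ 0 ∧ (p.map τ).eval s = 0) :
    ∃ (K' : Type) (_ : Field K') (_ : NumberField K') (φ : K →+* K') (τ' : K' →+* ℝ) (w : K'),
      τ'.comp φ = τ ∧ τ' w = s := by
  let _ : Algebra K ℝ := τ.toAlgebra
  have hint : IsIntegral K s := by
    obtain ⟨p, hp, hps⟩ := hs
    have h1 : IsAlgebraic K s := ⟨p, hp, by
      rw [Polynomial.aeval_def, ← Polynomial.eval_map]
      exact hps⟩
    exact h1.isIntegral
  let E := IntermediateField.adjoin K {s}
  have : FiniteDimensional K E := IntermediateField.adjoin.finiteDimensional hint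
  have : CharZero E := inferInstance
  have : IsScalarTower ℚ K E := IsScalarTower.of_algebraMap_eq fun q => by
    rw [eq_ratCast, eq_ratCast]
    exact (map_ratCast (algebraMap K E) q).symm
  have : FiniteDimensional ℚ E := FiniteDimensional.trans ℚ K E
  have : NumberField E := ⟨⟩
  exact ⟨E, inferInstance, inferInstance, algebraMap K E, E.val.toRingHom,
    ⟨s, IntermediateField.mem_adjoin_simple_self K s⟩, rfl, rfl⟩

/-- a real square root -/
theorem real_sqrt_ext (K : Type) [Field K] [NumberField K] (τ : K →+* ℝ) (d : K) (hd : 0 < τ d) :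
    ∃ (K' : Type) (_ : Field K') (_ : NumberField K') (φ : K →+* K') (τ' : K' →+* ℝ) (w : K'),
      τ'.comp φ = τ ∧ w ^ 2 = φ d := by
  obtain ⟨K', i1, i2, φ, τ', w, h1, h2⟩ := real_ext K τ (Real.sqrt (τ d))
    ⟨Polynomial.X ^ 2 - Polynomial.C d, Polynomial.X_pow_sub_C_ne_zero two_pos d, by
      rw [Polynomial.map_sub, Polynomial.map_pow, Polynomial.map_X, Polynomial.map_C,
        Polynomial.eval_sub, Polynomial.eval_pow, Polynomial.eval_X, Polynomial.eval_C,
        Real.sq_sqrt hd.le, sub_self]⟩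
  refine ⟨K', i1, i2, φ, τ', w, h1, τ'.injective ?_⟩
  rw [map_pow, h2, Real.sq_sqrt hd.le, ← h1]
  rfl

section disc

open Pool.Agent.Q35.TT (bd)
open Pool.Agent.Q222.TT.Opn (lc_line eval_lc rst_coef)

variable {F : Type} [Field F] [CharZero F]

/-- the discriminant vanishes on a tangent line -/
theorem dc_tg {f : MvPolynomial (Fin 2) F} (hf : ∀ j, f.degreeOf j ≤ 4) {z : Fin 2 → F} {i : Fin 2}
    (h : Tg f z i) : dc (lc f (af z) i 0) (lc f (af z) i 1) (lc f (af z) i 2) (lc f (af z) i 3)
      (lc f (af z) i 4) = 0 := by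
  obtain ⟨y, hy, h0, h1⟩ := tg_point h
  set f' := map (toC F) f with hf'
  have hd : ∀ j, f'.degreeOf j ≤ 4 := fun j => degreeOf_map_le _ (hf j)
  have e0 : eval y f' = 0 := by rw [hf', eval_map]; exact h0
  have e1 : eval y (pderiv i f') = 0 := by rw [hf', pderiv_map, eval_map]; exact h1
  have e2 : tay (lc f' (af y) i) (y i) 0 = 0 := by
    rw [← (rst_coef hd y i).1]
    have h3 : cq f' y (Pi.single i 1) 0 = (Polynomial.derivative (rst f' y (Pi.single i 1))).eval 0 := by
      rw [← Polynomial.coeff_zero_eq_eval_zero, Polynomial.coeff_derivative, cq]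
      simp
    rw [h3, rst_deriv, dd_single', rst_eval]
    simpa using e1
  have e3 : bq (lc f' (af y) i) ![1, y i] = 0 := by
    rw [← eval_lc hd y i]
    exact e0
  have e4 : lc f' (af y) i = fun k => toC F (lc f (af z) i k) := by
    rw [lc_line hd y (fun k => toC F (z k)) i hy]
    funext k
    rw [Pool.Agent.Q13.TB.lc_map', Pool.Agent.Q13.TB.af_map']
  have e5 : dc (lc f' (af y) i 0) (lc f' (af y) i 1) (lc f' (af y) i 2) (lc f' (af y) i 3)
      (lc f' (af y) i 4) = 0 := by
    set a := lc f' (af y) i with ha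
    rw [← dc_shift (y i) (a 0)]
    have c0 : a 0 + y i * a 1 + y i ^ 2 * a 2 + y i ^ 3 * a 3 + y i ^ 4 * a 4 = 0 := by
      rw [← e3, bq]
      simp
      ring
    have c1 : a 1 + 2 * y i * a 2 + 3 * y i ^ 2 * a 3 + 4 * y i ^ 3 * a 4 = 0 := by
      rw [← e2, tay]
      simp
      ring
    rw [c0, c1, dc, dsc]
    ring
  rw [e4] at e5
  apply (toC F).injective
  rw [map_zero, ← e5]
  simp only [dc, dsc, map_add, map_sub, map_mul, map_pow, map_ofNat]

end disc

end Pool.Agent.U199.ZR
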