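import Pool.Agent.U199.ZR.G

/-!
# Existence of central points over real extensions
-/

set_option autoImplicit false
set_option linter.unusedSectionVars false
set_option linter.unusedVariables false

open MvPolynomial Pool.Agent.Y720.MZ Filter Topology

namespace Pool.Agent.U199.ZR

open Pool.Agent.Q35.ZC
open Pool.Agent.Q35.TT (SmoothN TorN Tor TorT lc af bq tay ND S_TWS S_SPE S_TBN pq)

section lemmas

theorem hS : S_STEP := step2
theorem hM : S_MAP := map2
theorem h2 : S_TWS := Pool.Agent.Q35.TT.tws2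
theorem h3 : S_SPE := Pool.Agent.Q149.TT.spe
theorem h4 : S_TBN := Pool.Agent.Q35.TT.tbn_of Pool.Agent.Q35.TT.orn2
theorem h1 : Pool.Agent.Q35.TT.S_TAN := Pool.Agent.Q35.TT.tan2

end lemmas

variable {K : Type} [Field K] [NumberField K]

/-- a number of the field close to a real number, outside a finite set -/
theorem near_not (τ : K →+* ℝ) {F : Set K} (hF : F.Finite) (x : ℝ) {δ : ℝ} (hδ : 0 < δ) :
    ∃ r : K, |τ r - x| < δ ∧ r ∉ F := by
  obtain ⟨y, hy1, hy2⟩ : ∃ y, |y - x| < δ / 2 ∧ y ∉ τ '' F := by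
    by_contra hcon
    push Not at hcon
    have h1 : {y : ℝ | |y - x| < δ / 2} ∈ nhds x := by
      refine (isOpen_lt (by fun_prop) continuous_const).mem_nhds ?_
      simpa using hδ
    exact infinite_of_mem_nhds x h1 ((hF.image τ).subset fun a ha => hcon a ha)
  obtain ⟨η, hη, hη1⟩ := Metric.isOpen_iff.1 (hF.image τ).isClosed.isOpen_compl y hy2
  obtain ⟨q, hq1, hq2⟩ := exists_rat_btwn (show y < y + min (δ / 2) η by
    have := lt_min (half_pos hδ) hη
    linarith)
  have hm1 := min_le_left (δ / 2) η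
  have hm2 := min_le_right (δ / 2) η
  refine ⟨(q : K), ?_, ?_⟩
  · rw [map_ratCast, abs_lt]
    rw [abs_lt] at hy1
    constructor <;> linarith
  · intro h
    have h5 : τ (q : K) ∈ Metric.ball y η := by
      rw [Metric.mem_ball, Real.dist_eq, map_ratCast, abs_lt]
      constructor <;> linarith
    exact hη1 h5 ⟨_, h, rfl⟩

/-- the points on a tangent line at which moves begin -/
theorem start_tg {f : MvPolynomial (Fin 2) K} (hf : ∀ j, f.degreeOf j ≤ 4) (hs : SmoothN f)
    {i j : Fin 2} (hij : i ≠ j) {z₀ : Fin 2 → K} (ht : Tg f z₀ i) :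
    ∃ S : Set K, S.Finite ∧ ∀ z : Fin 2 → K, z j = z₀ j → z i ∉ S → Start f z := by
  have hk : ∀ k : Fin 2, k ≠ i → k = j := by
    intro k hk
    have := hij
    omega
  obtain ⟨y, hy, hy0, hy1⟩ := tg_point ht
  obtain ⟨hND, -⟩ := ndt2 K f hf hs i j hij z₀ ⟨y, hy j (Ne.symm hij), hy0, hy1⟩
  refine ⟨{t : K | TorN f (Function.update z₀ i t) j} ∪
      {c : K | ∃ x : Fin 2 → K, x i = c ∧ ¬ Reg f x j i},
    (h4 K 2 f hf z₀ i j hij hND).union (fin_reg h3 hf hs j i (Ne.symm hij)), fun z hz hzS => ?_⟩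
  rw [Set.mem_union, not_or] at hzS
  refine ⟨j, i, Ne.symm hij, ?_, ?_⟩
  · have h5 : Function.update z₀ i (z i) = z := by
      funext k
      by_cases h : k = i
      · subst h; simp
      · rw [Function.update_of_ne h, hk k h, hz]
    intro h6
    apply hzS.1
    rw [Set.mem_ofPred_eq, h5]
    exact h6
  · by_contra hcon
    exact hzS.2 ⟨z, rfl, hcon⟩

theorem tg_line {f : MvPolynomial (Fin 2) K} {z z' : Fin 2 → K} {i : Fin 2}
    (h : ∀ k, k ≠ i → z k = z' k) (ht : Tg f z i) : Tg f z' i := by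
  obtain ⟨y, hy, h0, h1⟩ := tg_point ht
  have h5 : Tg (map (toC K) f) (fun k => toC K (z' k)) i :=
    tg_of_root (y := y) (fun k hk => by rw [hy k hk, h k hk]) (by rw [eval_map]; exact h0)
      (by rw [pderiv_map, eval_map]; exact h1)
  exact (tg_map (toC K)).1 h5

/-- points on tangent lines are central -/
theorem ct_tg {f : MvPolynomial (Fin 2) K} (hf : ∀ j, f.degreeOf j ≤ 4) {e : K} {z : Fin 2 → K}
    {w : K} {i : Fin 2} (hon : w ^ 2 = eval z (C e * f)) (ht : Tg f z i) :
    (z, w) ∈ CT (C e * f) := by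
  obtain ⟨y, hy, h0, h1⟩ := tg_point ht
  refine tangent_ct nod2 (i := i) ((degreeOf_C_mul_le f i e).trans (hf i)) hon ⟨y, hy, ?_, ?_⟩
  · rw [map_mul, h0, mul_zero]
  · rw [pderiv_C_mul, map_mul, h1, mul_zero]

theorem ct_odd (g : MvPolynomial (Fin 2) K) : Odd' g (CT g) := fun P hP => ⟨hP.1, odds_ct hM hP⟩

/-- **Existence**, on a rational tangent line. -/
theorem exist_rat (τ : K →+* ℝ) {f : MvPolynomial (Fin 2) K} (hf : ∀ j, f.degreeOf j ≤ 4)
    (hs : SmoothN f) {e : K} (he : e ≠ 0) {i j : Fin 2} (hij : i ≠ j) {z₀ : Fin 2 → K}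
    (ht : Tg f z₀ i) {x : Fin 2 → ℝ} {y : ℝ} (hx : x j = τ (z₀ j)) (hy0 : y ≠ 0)
    (hy : y ^ 2 = eval x (map τ (C e * f))) :
    ∃ (K' : Type) (_ : Field K') (_ : NumberField K') (φ : K →+* K') (τ' : K' →+* ℝ),
      τ'.comp φ = τ ∧ ∀ S : Set ((Fin 2 → ℝ) × ℝ), IsPreconnected S →
        (∀ T ∈ S, OnCover (map τ (C e * f)) T) → (x, y) ∈ S →
        S ⊆ closure (rp τ' (CT (map φ (C e * f)))) := by
  have hk : ∀ k : Fin 2, k ≠ i → k = j := by
    intro k hk
    have := hij
    omega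
  set G := map τ (C e * f) with hG
  have hGx : 0 < eval x G := by rw [← hy]; positivity
  obtain ⟨S0, hS0, hstart⟩ := start_tg hf hs hij ht
  -- an interval on the line
  have hcont : Continuous fun t : ℝ => eval (Function.update x i t) G :=
    (continuous_eval G).comp (continuous_const.update i continuous_id)
  obtain ⟨δ, hδ, hball⟩ := Metric.isOpen_iff.mp (isOpen_lt continuous_const hcont) (x i)
    (by rw [Set.mem_ofPred_eq, Function.update_eq_self]; exact hGx)
  obtain ⟨t0, ht0, ht0S⟩ := near_not τ hS0 (x i) hδ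
  set z : Fin 2 → K := Function.update z₀ i t0 with hz
  have hzi : z i = t0 := by rw [hz, Function.update_self]
  have hzj : z j = z₀ j := by rw [hz, Function.update_of_ne (Ne.symm hij)]
  have hzx : (fun k => τ (z k)) = Function.update x i (τ t0) := by
    funext k
    by_cases h : k = i
    · subst h
      rw [hzi, Function.update_self]
    · rw [Function.update_of_ne h, hk k h, hzj, hx]
  have hst : Start f z := hstart z hzj (by rw [hzi]; exact ht0S)
  have htz : Tg f z i := tg_line (fun k hk' => by rw [hz, Function.update_of_ne hk']) ht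
  set d := eval z (C e * f) with hd
  have hτd : τ d = eval (fun k => τ (z k)) G := by
    rw [hG, eval_map]
    exact eval₂_comp_left τ (RingHom.id K) z (C e * f)
  have hdpos : 0 < τ d := by
    rw [hτd, hzx]
    exact hball (by rw [Metric.mem_ball, Real.dist_eq]; exact ht0)
  obtain ⟨K', i1, i2, φ, τ', w, hφ, hw⟩ := real_sqrt_ext K τ d hdpos
  refine ⟨K', i1, i2, φ, τ', hφ, fun S hSc hSon hxS => ?_⟩
  have hφ' : ∀ a, τ' (φ a) = τ a := fun a => by rw [← hφ]; rfl
  have em : map φ (C e * f) = C (φ e) * map φ f := by rw [map_mul, map_C]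
  have hf' : ∀ j, (map φ f).degreeOf j ≤ 4 := fun j => degreeOf_map_le φ (hf j)
  have hs' : SmoothN (map φ f) := smb2 K K' φ 2 f hs
  have he' : φ e ≠ 0 := (map_ne_zero φ).2 he
  have hG' : map τ' (C (φ e) * map φ f) = G := by
    rw [← em, MvPolynomial.map_map, hφ]
  have hon : w ^ 2 = eval (fun k => φ (z k)) (C (φ e) * map φ f) := by
    rw [hw, ← em, hd, eval_map]
    exact eval₂_comp_left φ (RingHom.id K) z (C e * f)
  have hw0 : w ≠ 0 := by
    rintro rfl
    rw [zero_pow two_ne_zero] at hw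
    have h5 : d = 0 := φ.injective (by rw [← hw, map_zero])
    rw [h5, map_zero] at hdpos
    exact lt_irrefl _ hdpos
  have hct : ((fun k => φ (z k)), w) ∈ CT (C (φ e) * map φ f) := ct_tg hf' hon ((tg_map φ).2 htz)
  have hRS : ((fun k => φ (z k)), w) ∈ RS (map φ f) (CT (C (φ e) * map φ f)) :=
    ⟨hct, hw0, start_map φ hst⟩
  -- the segment
  have hP : x ∈ closure (pr τ' (RB (map φ f) (CT (C (φ e) * map φ f)) ∅)) := by
    have hpre : IsPreconnected ((fun t => Function.update x i t) '' Metric.ball (x i) δ) :=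
      (convex_ball _ _).isPreconnected.image _
        (show Continuous fun t : ℝ => Function.update x i t from
          continuous_const.update i continuous_id).continuousOn
    refine conn_D hS h2 h3 h4 τ' hf' hs' he' (ct_odd _) Set.finite_empty hpre ?_ ?_ ?_
    · rintro _ ⟨t, ht, rfl⟩
      rw [hG']
      exact hball ht
    · refine ⟨Function.update x i (τ t0), ⟨τ t0, by rw [Metric.mem_ball, Real.dist_eq]; exact ht0, rfl⟩,
        subset_closure ⟨_, ⟨_, hRS, rfl⟩, ?_⟩⟩
      rw [← hzx]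
      funext k
      exact hφ' (z k)
    · exact ⟨x i, Metric.mem_ball_self hδ, Function.update_eq_self _ _⟩
  have hxy : (x, y) ∈ closure (rp τ' (RB (map φ f) (CT (C (φ e) * map φ f)) ∅)) :=
    lift_D τ' (ct_odd _) hP (by rw [hG']; exact hy)
  have hmono : rp τ' (RB (map φ f) (CT (C (φ e) * map φ f)) ∅) ⊆
      rp τ' (RS (map φ f) (CT (C (φ e) * map φ f))) := by
    rintro _ ⟨Q, hQ, rfl⟩
    exact ⟨Q, ⟨hQ.1, hQ.2.1, hQ.2.2.1⟩, rfl⟩
  have h5 := comp0 hS h2 h3 h4 τ' hf' hs' he' (ct_odd _) Set.finite_empty hSc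
    (by rw [hG']; exact hSon) ⟨(x, y), hxS, closure_mono hmono hxy⟩
  rw [em]
  refine h5.trans (closure_mono ?_)
  rintro _ ⟨Q, hQ, rfl⟩
  exact ⟨Q, hQ.1, rfl⟩

end Pool.Agent.U199.ZR
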