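import Pool.Agent.U199.ZR.H

/-!
# Existence of central points over real extensions: all singular fibres
-/

set_option autoImplicit false
set_option linter.unusedSectionVars false
set_option linter.unusedVariables false

open MvPolynomial Pool.Agent.Y720.MZ Filter Topology

namespace Pool.Agent.U199.ZR

open Pool.Agent.Q35.ZC
open Pool.Agent.Q35.TT (SmoothN TorN Tor TorT lc af bq tay ND S_TWS S_SPE S_TBN pq)

theorem tg_line' {F : Type} [Field F] [CharZero F] {f : MvPolynomial (Fin 2) F} {z z' : Fin 2 → F}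
    {i : Fin 2} (h : ∀ k, k ≠ i → z k = z' k) (ht : Tg f z i) : Tg f z' i := by
  obtain ⟨y, hy, h0, h1⟩ := tg_point ht
  have h5 : Tg (map (toC F) f) (fun k => toC F (z' k)) i :=
    tg_of_root (y := y) (fun k hk => by rw [hy k hk, h k hk]) (by rw [eval_map]; exact h0)
      (by rw [pderiv_map, eval_map]; exact h1)
  exact (tg_map (toC F)).1 h5

variable {K : Type} [Field K] [NumberField K]

/-- the tangent lines have algebraic coordinates -/
theorem alg (τ : K →+* ℝ) {f : MvPolynomial (Fin 2) K} (hf : ∀ j, f.degreeOf j ≤ 4)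
    (hs : SmoothN f) {i j : Fin 2} (hij : i ≠ j) {x : Fin 2 → ℝ} (ht : Tg (map τ f) x i) :
    ∃ p : Polynomial K, p ≠ 0 ∧ (p.map τ).eval (x j) = 0 := by
  classical
  have hk : ∀ k : Fin 2, k ≠ i → k = j := by
    intro k hk
    have := hij
    omega
  -- the coefficients of the restriction to a line, as polynomials
  set L : Fin 5 → Polynomial K := fun k =>
    lc (map (Polynomial.C : K →+* Polynomial K) f) (af fun _ => (Polynomial.X : Polynomial K)) i k
    with hL
  have key : ∀ {S : Type} [Field S] [CharZero S] (ψ : K →+* S) (z : Fin 2 → S) (k : Fin 5),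
      (Polynomial.eval₂RingHom ψ (z j)) (L k) = lc (map ψ f) (af z) i k := by
    intro S _ _ ψ z k
    have h1 : lc (map ψ f) (af z) i = lc (map ψ f) (af fun _ => z j) i :=
      Pool.Agent.Q222.TT.Opn.lc_line (fun l => degreeOf_map_le ψ (hf l)) _ _ i fun l hl => by
        rw [hk l hl]
    rw [h1, hL]
    simp only
    rw [Pool.Agent.Q13.TB.lc_map', MvPolynomial.map_map]
    have h2 : (Polynomial.eval₂RingHom ψ (z j)).comp Polynomial.C = ψ := by
      ext a
      simp
    have h3 : (fun l b => (Polynomial.eval₂RingHom ψ (z j))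
        (af (fun _ : Fin 2 => (Polynomial.X : Polynomial K)) l b)) = af (fun _ => z j) := by
      rw [← Pool.Agent.Q13.TB.af_map']
      simp
    rw [h2, h3]
  refine ⟨dc (L 0) (L 1) (L 2) (L 3) (L 4), ?_, ?_⟩
  · -- a regular line
    have : Infinite K := CharZero.infinite K
    obtain ⟨s, hs'⟩ := (fin_reg h3 hf hs i j hij).exists_notMem
    rw [Set.mem_ofPred_eq] at hs'
    push Not at hs'
    obtain ⟨h5, -⟩ := hs' (fun _ => s) rfl
    rw [gi hf] at h5
    intro h0
    apply h5
    have h6 := congrArg (Polynomial.eval₂RingHom (RingHom.id K) s) h0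
    have h7 := fun k => key (RingHom.id K) (fun _ => s) k
    simp only [MvPolynomial.map_id] at h7
    rw [map_zero] at h6
    rw [← h7 0, ← h7 1, ← h7 2, ← h7 3, ← h7 4, ← h6]
    simp only [dc, dsc, map_add, map_sub, map_mul, map_pow, map_ofNat]
  · have h5 := dc_tg (fun l => degreeOf_map_le τ (hf l)) ht
    have h7 := fun k => key τ x k
    rw [← h7 0, ← h7 1, ← h7 2, ← h7 3, ← h7 4] at h5
    rw [Polynomial.eval_map, ← Polynomial.coe_eval₂RingHom]
    rw [← h5]
    simp only [dc, dsc, map_add, map_sub, map_mul, map_pow, map_ofNat]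

/-- **Existence**, on all tangent lines. -/
theorem exist_real (τ : K →+* ℝ) {f : MvPolynomial (Fin 2) K} (hf : ∀ j, f.degreeOf j ≤ 4)
    (hs : SmoothN f) {e : K} (he : e ≠ 0) {i : Fin 2} {x : Fin 2 → ℝ} {y : ℝ}
    (ht : Tg (map τ f) x i) (hy0 : y ≠ 0) (hy : y ^ 2 = eval x (map τ (C e * f))) :
    ∃ (K' : Type) (_ : Field K') (_ : NumberField K') (φ : K →+* K') (τ' : K' →+* ℝ),
      τ'.comp φ = τ ∧ ∀ S : Set ((Fin 2 → ℝ) × ℝ), IsPreconnected S →
        (∀ T ∈ S, OnCover (map τ (C e * f)) T) → (x, y) ∈ S →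
        S ⊆ closure (rp τ' (CT (map φ (C e * f)))) := by
  obtain ⟨j, hij⟩ : ∃ j : Fin 2, i ≠ j := by
    fin_cases i
    · exact ⟨1, by decide⟩
    · exact ⟨0, by decide⟩
  have hk : ∀ k : Fin 2, k ≠ i → k = j := by
    intro k hk
    have := hij
    omega
  obtain ⟨K1, i1, i2, φ1, τ1, c1, hφ1, hc1⟩ := real_ext K τ (x j) (alg τ hf hs hij ht)
  have em : map φ1 (C e * f) = C (φ1 e) * map φ1 f := by rw [map_mul, map_C]
  have hf1 : ∀ j, (map φ1 f).degreeOf j ≤ 4 := fun j => degreeOf_map_le φ1 (hf j)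
  have hs1 : SmoothN (map φ1 f) := smb2 K K1 φ1 2 f hs
  have he1 : φ1 e ≠ 0 := (map_ne_zero φ1).2 he
  have hG : map τ1 (C (φ1 e) * map φ1 f) = map τ (C e * f) := by
    rw [← em, MvPolynomial.map_map, hφ1]
  have ht1 : Tg (map φ1 f) (fun _ => c1) i := by
    refine (tg_map τ1).1 ?_
    rw [MvPolynomial.map_map, hφ1]
    refine tg_line' (fun k hk' => ?_) ht
    rw [hc1, hk k hk']
  obtain ⟨K', i3, i4, φ', τ', hφ', h5⟩ := exist_rat τ1 hf1 hs1 he1 hij ht1 (x := x) (y := y) hc1.symm
    hy0 (by rw [hG]; exact hy)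
  refine ⟨K', i3, i4, φ'.comp φ1, τ', ?_, fun S hSc hSon hxS => ?_⟩
  · rw [← RingHom.comp_assoc, hφ', hφ1]
  · have h6 := h5 S hSc (by rw [hG]; exact hSon) hxS
    rw [← em, MvPolynomial.map_map] at h6
    exact h6

end Pool.Agent.U199.ZR
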