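import Pool.Agent.U199.ZR.Q
import Pool.Agent.Q35.ZC.Ct
import Pool.Agent.Q35.ZC.All2

/-!
# Moving along the lines, with classes of zero-cycles, in the real points
-/

set_option autoImplicit false
set_option linter.unusedSectionVars false
set_option linter.unusedVariables false

open MvPolynomial Pool.Agent.Y720.MZ

namespace Pool.Agent.U199.ZR

open Pool.Agent.Q35.ZC
open Pool.Agent.Q35.TT (SmoothN TorN Tor TorT lc af bq tay ND S_TWS S_SPE S_TBN pq cy gd)
open Pool.Agent.Q121.TT (cf lc_zero lc_one)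
open Pool.Agent.Q190.TT (lc_smul bq_smul)

section odds

variable {K : Type} [Field K] [CharZero K] {n : ℕ} {g : MvPolynomial (Fin n) K}

/-- the classes are odd multiples of odd multiples -/
theorem odds_trans {P Q Q' : (Fin n → K) × K} (h : Q ∈ Odds g P) (h' : Q' ∈ Odds g Q) :
    Q' ∈ Odds g P := by
  obtain ⟨h1, m, h2⟩ := h
  obtain ⟨h1', m', h3⟩ := h'
  refine ⟨h1', 2 * m' * m + m' + m, ?_⟩
  have h4 : dl Q'.1 Q'.2 - (2 * (2 * m' * m + m' + m) + 1) • dl P.1 P.2 =
      (dl Q'.1 Q'.2 - (2 * m' + 1) • dl Q.1 Q.2) +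
        (2 * m' + 1) • (dl Q.1 Q.2 - (2 * m + 1) • dl P.1 P.2) := by
    module
  rw [h4]
  exact add_mem h3 (AddSubgroup.zsmul_mem _ h2 _)

theorem odds_self {P : (Fin n → K) × K} (h : OnCover g P) : P ∈ Odds g P :=
  ⟨h, 0, by simp⟩

theorem odds_neg {z : Fin n → K} {w : K} (h : w ^ 2 = eval z g) : (z, -w) ∈ Odds g (z, w) := by
  refine ⟨?_, -1, ?_⟩
  · change (-w) ^ 2 = _
    rw [neg_sq]
    exact h
  · have h1 : dl z (-w) - (2 * (-1) + 1 : ℤ) • dl z w = 0 := by
      simp only [dl, neg_neg]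
      module
    rw [h1]
    exact zero_mem _

/-- one move -/
theorem odds_mv (hS : S_STEP) (hd : ∀ j, g.degreeOf j ≤ 4) {z : Fin n → K} {w u Z : K} {i : Fin n}
    (h1 : w ^ 2 = eval z g) (hM : MulPt (w, cq g z (Pi.single i 1)) u Z) :
    (mv z i u, Z) ∈ Odds g (z, w) := by
  obtain ⟨m', h3⟩ := hS K n g hd z w i u Z h1 hM
  refine ⟨?_, m', h3⟩
  obtain ⟨hw0, h, -, M, X, W, h', -, hD, hu, hZ⟩ := hM
  change Z ^ 2 = _
  have h4 := Yf_eqn (q₁ := cq g z (Pi.single i 1) 0) (q₂ := cq g z (Pi.single i 1) 1)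
    (q₃ := cq g z (Pi.single i 1) 2) (q₄ := cq g z (Pi.single i 1) 3) hw0 (cv_ns.1 h').1 hD
  rw [← hu, ← hZ] at h4
  rw [h4]
  exact cq_eval (deg_rst (hd i) z) h1 u

theorem mv_update (z : Fin n → K) (i : Fin n) (r : K) : mv z i (r - z i) = Function.update z i r := by
  funext a
  unfold mv
  by_cases h : a = i
  · subst h
    rw [Pi.single_eq_same, Function.update_self]
    ring
  · rw [Pi.single_eq_of_ne h, Function.update_of_ne h]
    ring

end odds

section real

variable {K : Type} [Field K] [CharZero K] {n : ℕ} {g : MvPolynomial (Fin n) K}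

theorem onX_map' (σ : K →+* ℝ) {z : Fin n → K} {w : K} (h : w ^ 2 = eval z g) :
    (σ w) ^ 2 = eval (fun k => σ (z k)) (map σ g) := by
  rw [← map_pow, h, eval_map]
  exact eval₂_comp_left σ (RingHom.id K) z g

theorem Qr_eval (σ : K →+* ℝ) (hd : ∀ j, g.degreeOf j ≤ 4) {z : Fin n → K} {w : K} {i : Fin n}
    (h1 : w ^ 2 = eval z g) (t : ℝ) :
    Pool.Agent.Y718.X.Qr (σ w) (σ (cq g z (Pi.single i 1) 0)) (σ (cq g z (Pi.single i 1) 1))
      (σ (cq g z (Pi.single i 1) 2)) (σ (cq g z (Pi.single i 1) 3)) t =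
      eval (Function.update (fun k => σ (z k)) i (σ (z i) + t)) (map σ g) := by
  have h2 : ∀ j, (map σ g).degreeOf j ≤ 4 := fun j => degreeOf_map_le σ (hd j)
  have h3 := cq_eval (f := map σ g) (z := fun k => σ (z k))
    (e := fun a => σ ((Pi.single i 1 : Fin n → K) a)) (w := σ w) (by
      rw [← rst_map]
      exact Polynomial.natDegree_map_le.trans (deg_rst (hd i) z)) (onX_map' σ h1) t
  have h4 : (fun j => σ (cq g z (Pi.single i 1) j)) = cq (map σ g) (fun a => σ (z a))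
      (fun a => σ ((Pi.single i 1 : Fin n → K) a)) := by
    funext j
    simp only [cq]
    rw [← rst_map, Polynomial.coeff_map]
  rw [← h4] at h3
  have h5 : (fun a => σ (z a) + t * σ ((Pi.single i 1 : Fin n → K) a)) =
      Function.update (fun k => σ (z k)) i (σ (z i) + t) := by
    funext a
    by_cases h : a = i
    · subst h
      rw [Pi.single_eq_same, Function.update_self, map_one, mul_one]
    · rw [Pi.single_eq_of_ne h, Function.update_of_ne h, map_zero, mul_zero, add_zero]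
  rw [h5] at h3
  rw [← h3]
  rfl

/-- **Moving along a line, in the real points.** -/
theorem line_move (hS : S_STEP) (σ : K →+* ℝ) (hd : ∀ j, g.degreeOf j ≤ 4) {z : Fin n → K} {w : K}
    {i : Fin n} (hw : w ≠ 0) (hon : w ^ 2 = eval z g)
    (hio : ∀ w' : K, w' ≠ 0 → w' ^ 2 = eval z g → IOt (th g (Pi.single i 1) z w')) {t : ℝ}
    (hseg : ∀ s : ℝ, 0 ≤ s → s ≤ 1 →
      0 < eval (Function.update (fun k => σ (z k)) i (σ (z i) + s * t)) (map σ g))
    {ε : ℝ} (hε : 0 < ε) :
    ∃ r Z : K, |σ r - t| < ε ∧ Z ≠ 0 ∧ (mv z i r, Z) ∈ Odds g (z, w) := by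
  let : DecidableEq K := Classical.decEq K
  have key : ∀ w' : K, w' ≠ 0 → 0 < σ w' → w' ^ 2 = eval z g →
      ∃ r Z : K, |σ r - t| < ε ∧ Z ≠ 0 ∧ (mv z i r, Z) ∈ Odds g (z, w') := by
    intro w' hw' hp hon'
    obtain ⟨h1, h2⟩ := hio w' hw' hon'
    obtain ⟨r, Y, h3, h4, h5⟩ := qm_pos σ (w := w') (q₁ := cq g z (Pi.single i 1) 0)
      (q₂ := cq g z (Pi.single i 1) 1) (q₃ := cq g z (Pi.single i 1) 2)
      (q₄ := cq g z (Pi.single i 1) 3) hw' h1 h2 hp (t := t) (fun s h0 h1 => by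
        rw [Qr_eval σ hd hon']
        exact hseg s h0 h1) hε
    rcases h5 with rfl | h5
    · refine ⟨0, w', h3, hw', ?_⟩
      have h6 : mv z i 0 = z := by
        funext a
        simp [mv]
      rw [h6]
      exact odds_self hon'
    · refine ⟨r, Y, h3, h4, odds_mv hS hd hon' ?_⟩
      have h6 : (![cq g z (Pi.single i 1) 0, cq g z (Pi.single i 1) 1, cq g z (Pi.single i 1) 2,
          cq g z (Pi.single i 1) 3] : Fin 4 → K) = cq g z (Pi.single i 1) := by
        funext k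
        fin_cases k <;> rfl
      rw [h6] at h5
      exact h5
  rcases lt_or_gt_of_ne ((map_ne_zero σ).2 hw) with hneg | hpos
  · have hon' : (-w) ^ 2 = eval z g := by rw [neg_sq]; exact hon
    obtain ⟨r, Z, h1, h2, h3⟩ := key (-w) (neg_ne_zero.2 hw) (by rw [map_neg]; linarith) hon'
    exact ⟨r, Z, h1, h2, odds_trans (odds_neg hon) h3⟩
  · exact key w hw hpos hon

/-- a target outside a finite set -/
theorem line_target (hS : S_STEP) (σ : K →+* ℝ) (hd : ∀ j, g.degreeOf j ≤ 4) {z : Fin n → K} {w : K}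
    {i : Fin n} (hw : w ≠ 0) (hon : w ^ 2 = eval z g)
    (hio : ∀ w' : K, w' ≠ 0 → w' ^ 2 = eval z g → IOt (th g (Pi.single i 1) z w'))
    {x δ : ℝ} (hz : |σ (z i) - x| < δ)
    (hpos : ∀ t : ℝ, |t - x| < δ → 0 < eval (Function.update (fun k => σ (z k)) i t) (map σ g))
    {y : ℝ} (hy : |y - x| < δ) {F : Set K} (hF : F.Finite) {ε : ℝ} (hε : 0 < ε) :
    ∃ r Z : K, |σ r - y| < ε ∧ r ∉ F ∧ Z ≠ 0 ∧ (Function.update z i r, Z) ∈ Odds g (z, w) := by
  classical
  -- a target outside the image of the finite set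
  obtain ⟨y', hy1, hy2, hy3⟩ : ∃ y', |y' - y| < ε / 2 ∧ |y' - x| < δ ∧ y' ∉ σ '' F := by
    by_contra hcon
    push Not at hcon
    have h1 : ({y' : ℝ | |y' - y| < ε / 2} ∩ {y' : ℝ | |y' - x| < δ}) ∈ nhds y := by
      refine Filter.inter_mem ?_ ?_
      · refine (isOpen_lt (by fun_prop) continuous_const).mem_nhds ?_
        simpa using half_pos hε
      · exact (isOpen_lt (by fun_prop) continuous_const).mem_nhds hy
    exact infinite_of_mem_nhds y h1 ((hF.image σ).subset fun a ha => hcon a ha.1 ha.2)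
  obtain ⟨η, hη, hη1⟩ := Metric.isOpen_iff.1 (hF.image σ).isClosed.isOpen_compl y' hy3
  obtain ⟨r, Z, h1, h2, h3⟩ := line_move hS σ hd hw hon hio (t := y' - σ (z i)) (fun s h0 h1 => by
    apply hpos
    have e1 : σ (z i) + s * (y' - σ (z i)) - x = (1 - s) * (σ (z i) - x) + s * (y' - x) := by ring
    rw [e1]
    refine (abs_add_le _ _).trans_lt ?_
    rw [abs_mul, abs_mul, abs_of_nonneg h0, abs_of_nonneg (by linarith : 0 ≤ 1 - s)]
    rcases lt_or_eq_of_le h0 with h2 | h2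
    · nlinarith
    · rw [← h2]
      simpa using hz) (lt_min (half_pos hε) hη)
  refine ⟨z i + r, Z, ?_, ?_, h2, ?_⟩
  · rw [map_add]
    have h4 := h1.trans_le (min_le_left _ _)
    have h5 := abs_add_le (σ r - (y' - σ (z i))) (y' - y)
    have h6 : σ r - (y' - σ (z i)) + (y' - y) = σ (z i) + σ r - y := by ring
    rw [h6] at h5
    linarith
  · intro h4
    have h5 : σ (z i + r) ∈ Metric.ball y' η := by
      rw [Metric.mem_ball, Real.dist_eq, map_add]
      have h6 : σ (z i) + σ r - y' = σ r - (y' - σ (z i)) := by ring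
      rw [h6]
      exact h1.trans_le (min_le_right _ _)
    exact hη1 h5 ⟨_, h4, rfl⟩
  · rw [← mv_update]
    have h4 : z i + r - z i = r := by ring
    rw [h4]
    exact h3

end real

end Pool.Agent.U199.ZR
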