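import Pool.Agent.Y718.QD
import Pool.Agent.Q35.ZC.Stm

/-!
# The multiples of the class of `P - ι P` on `w² = quartic` are dense in intervals
-/

set_option autoImplicit false
set_option linter.unusedSectionVars false
set_option linter.unusedVariables false

open WeierstrassCurve Filter Topology Pool.Agent.Y720.MZ Pool.Agent.Y718.X

namespace Pool.Agent.U199.ZR

open Pool.Agent.Q35.ZC (MulPt)

variable {K : Type*} [Field K] [DecidableEq K]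

/-- **Density, away from one parameter.** -/
theorem qm_main (σ : K →+* ℝ) {w q₁ q₂ q₃ q₄ : K} (hw0 : w ≠ 0)
    (hD : dsc q₂ (rb w q₁ q₃ q₄) (rc w q₁ q₂ q₃ q₄) ≠ 0)
    (hS : ∀ h, ∀ n : ℕ, n ≠ 0 → n • (.some (xs w q₁ q₂) (ys w q₁ q₂ q₃) h :
      Pt q₂ (rb w q₁ q₃ q₄) (rc w q₁ q₂ q₃ q₄)) ≠ 0) (hpos : 0 < σ w) {t : ℝ} (ht : t ≠ 0)
    (hseg : ∀ s : ℝ, 0 ≤ s → s ≤ 1 → 0 < Qr (σ w) (σ q₁) (σ q₂) (σ q₃) (σ q₄) (s * t))
    (hN : 4 * σ w ^ 2 * (Xr (σ w) (σ q₁) (σ q₂) (σ q₃) (σ q₄) t + σ q₂) - σ q₁ ^ 2 ≠ 0)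
    {ε : ℝ} (hε : 0 < ε) : ∃ r Y : K, |σ r - t| < ε ∧ Y ≠ 0 ∧
      MulPt (w, ![q₁, q₂, q₃, q₄]) r Y := by
  have hch : CharZero K := σ.charZero
  have hns := ns_of_dsc hD (s_eqn (q₁ := q₁) (q₂ := q₂) (q₃ := q₃) (q₄ := q₄) hw0)
  set D : Pt q₂ (rb w q₁ q₃ q₄) (rc w q₁ q₂ q₃ q₄) := .some (xs w q₁ q₂) (ys w q₁ q₂ q₃) hns
    with hDdef
  have hMD : ∀ n : ℕ, n ≠ 0 → n • D ≠ 0 := fun n hn => hS hns n hn
  -- the real curve
  have e1 : σ (rb w q₁ q₃ q₄) = rb (σ w) (σ q₁) (σ q₃) (σ q₄) := by simp [rb, map_ofNat]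
  have e2 : σ (rc w q₁ q₂ q₃ q₄) = rc (σ w) (σ q₁) (σ q₂) (σ q₃) (σ q₄) := by simp [rc, map_ofNat]
  have hDr : dsc (σ q₂) (rb (σ w) (σ q₁) (σ q₃) (σ q₄)) (rc (σ w) (σ q₁) (σ q₂) (σ q₃) (σ q₄)) ≠ 0 := by
    rw [← e1, ← e2, ← map_dsc]
    exact (map_ne_zero σ).2 hD
  have hQ : 0 < Qr (σ w) (σ q₁) (σ q₂) (σ q₃) (σ q₄) t := by
    have := hseg 1 zero_le_one le_rfl
    rwa [one_mul] at this
  set X := Xr (σ w) (σ q₁) (σ q₂) (σ q₃) (σ q₄) t with hX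
  set Y := Yr (σ w) (σ q₁) (σ q₂) (σ q₃) (σ q₄) t with hY
  have hnear : Pool.Agent.Y718.X.Near σ D X Y := by
    apply near_all hD hMD
    · intro x hx
      rw [e1, e2]
      exact Xr_right hpos ht hseg hDr x hx
    · rw [e1, e2]
      exact inv_curve hpos.ne' ht hQ.le
  obtain ⟨n, x, y, h, hn, hx, hy⟩ := near_seq hnear
  have hYd : 2 * σ w * Y - σ q₁ * X - 2 * σ w ^ 2 * σ q₃ =
      (4 * σ w ^ 2 * (X + σ q₂) - σ q₁ ^ 2) / t := by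
    rw [hY, Yr, ← hX]
    have := hpos.ne'
    field_simp
    ring
  have hd0 : 2 * σ w * Y - σ q₁ * X - 2 * σ w ^ 2 * σ q₃ ≠ 0 := by
    rw [hYd]
    exact div_ne_zero hN ht
  have lnum : Tendsto (fun k => 4 * σ w ^ 2 * (σ (x k) + σ q₂) - σ q₁ ^ 2) atTop
      (𝓝 (4 * σ w ^ 2 * (X + σ q₂) - σ q₁ ^ 2)) :=
    ((hx.add_const _).const_mul _).sub_const _
  have lden : Tendsto (fun k => 2 * σ w * σ (y k) - σ q₁ * σ (x k) - 2 * σ w ^ 2 * σ q₃) atTop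
      (𝓝 (2 * σ w * Y - σ q₁ * X - 2 * σ w ^ 2 * σ q₃)) :=
    ((hy.const_mul _).sub (hx.const_mul _)).sub_const _
  have lt' : Tendsto (fun k => (4 * σ w ^ 2 * (σ (x k) + σ q₂) - σ q₁ ^ 2) /
      (2 * σ w * σ (y k) - σ q₁ * σ (x k) - 2 * σ w ^ 2 * σ q₃)) atTop (𝓝 t) := by
    have := lnum.div lden hd0
    have e : (4 * σ w ^ 2 * (X + σ q₂) - σ q₁ ^ 2) /
        (2 * σ w * Y - σ q₁ * X - 2 * σ w ^ 2 * σ q₃) = t := by
      rw [hYd]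
      field_simp
    rw [e] at this
    exact this
  set r : ℕ → K := fun k => tf w q₁ q₂ q₃ (x k) (y k) with hr
  have lr : Tendsto (fun k => σ (r k)) atTop (𝓝 t) := by
    refine lt'.congr fun k => ?_
    simp [hr, tf, Nf, Df, map_ofNat]
  have lY : Tendsto (fun k => σ (Yf w q₁ q₂ q₃ (x k) (y k))) atTop
      (𝓝 (-σ w + t * (t * X - σ q₁) / (2 * σ w))) := by
    have : Tendsto (fun k => -σ w + σ (r k) * (σ (r k) * σ (x k) - σ q₁) / (2 * σ w)) atTop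
      (𝓝 (-σ w + t * (t * X - σ q₁) / (2 * σ w))) :=
      ((lr.mul ((lr.mul hx).sub_const _)).div_const _).const_add _
    refine this.congr fun k => ?_
    simp [Yf, hr, map_ofNat]
  have hYlim : -σ w + t * (t * X - σ q₁) / (2 * σ w) =
      Real.sqrt (Qr (σ w) (σ q₁) (σ q₂) (σ q₃) (σ q₄) t) := by
    rw [hX, Xr]
    have := hpos.ne'
    field_simp
    ring
  rw [hYlim] at lY
  have hd1 : ∀ᶠ k in atTop, 2 * w * y k - q₁ * x k - 2 * w ^ 2 * q₃ ≠ 0 := by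
    filter_upwards [lden.eventually_ne hd0] with k hk h0
    apply hk
    have := congrArg σ h0
    simpa only [map_sub, map_mul, map_pow, map_ofNat, map_zero] using this
  have hε' := (Metric.tendsto_nhds.1 lr) ε hε
  obtain ⟨k, k1, k2, k3⟩ := (hd1.and (hε'.and (lY.eventually_ne (Real.sqrt_pos.2 hQ).ne'))).exists
  refine ⟨r k, Yf w q₁ q₂ q₃ (x k) (y k), ?_, ?_, ?_⟩
  · rwa [Real.dist_eq] at k2
  · intro h0
    rw [h0, map_zero] at k3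
    exact k3 rfl
  · unfold MulPt
    have hdec : Classical.decEq K = ‹DecidableEq K› := Subsingleton.elim _ _
    rw [hdec]
    exact ⟨hw0, hns, hMD, n k, x k, y k, h k, hn k, k1, rfl, rfl⟩

/-- **Density.** -/
theorem qm_pos (σ : K →+* ℝ) {w q₁ q₂ q₃ q₄ : K} (hw0 : w ≠ 0)
    (hD : dsc q₂ (rb w q₁ q₃ q₄) (rc w q₁ q₂ q₃ q₄) ≠ 0)
    (hS : ∀ h, ∀ n : ℕ, n ≠ 0 → n • (.some (xs w q₁ q₂) (ys w q₁ q₂ q₃) h :
      Pt q₂ (rb w q₁ q₃ q₄) (rc w q₁ q₂ q₃ q₄)) ≠ 0) (hpos : 0 < σ w) {t : ℝ}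
    (hseg : ∀ s : ℝ, 0 ≤ s → s ≤ 1 → 0 < Qr (σ w) (σ q₁) (σ q₂) (σ q₃) (σ q₄) (s * t))
    {ε : ℝ} (hε : 0 < ε) : ∃ r Y : K, |σ r - t| < ε ∧ Y ≠ 0 ∧
      (r = 0 ∨ MulPt (w, ![q₁, q₂, q₃, q₄]) r Y) := by
  have hch : CharZero K := σ.charZero
  by_cases ht : t = 0
  · subst ht
    exact ⟨0, w, by simpa using hε, hw0, Or.inl rfl⟩
  have hns := ns_of_dsc hD (s_eqn (q₁ := q₁) (q₂ := q₂) (q₃ := q₃) (q₄ := q₄) hw0)
  have hys : ys w q₁ q₂ q₃ ≠ 0 := by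
    intro h0
    apply hS hns 2 two_ne_zero
    rw [two_smul]
    exact dbl_zero hns (by rw [h0, mul_zero])
  -- at most one exceptional parameter
  have hexc : ∀ t : ℝ, t ≠ 0 → 0 ≤ Qr (σ w) (σ q₁) (σ q₂) (σ q₃) (σ q₄) t →
      4 * σ w ^ 2 * (Xr (σ w) (σ q₁) (σ q₂) (σ q₃) (σ q₄) t + σ q₂) - σ q₁ ^ 2 = 0 →
      (σ (xs w q₁ q₂) ^ 2 - 4 * σ w ^ 2 * σ q₄) * t = 4 * σ w * σ (ys w q₁ q₂ q₃) := by
    intro t ht hQ h0
    have hs := Real.sq_sqrt hQ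
    have hX : Xr (σ w) (σ q₁) (σ q₂) (σ q₃) (σ q₄) t = σ (xs w q₁ q₂) := by
      have e : σ (xs w q₁ q₂) = σ q₁ ^ 2 / (4 * σ w ^ 2) - σ q₂ := by simp [xs, map_ofNat]
      rw [e]
      have := hpos.ne'
      field_simp
      linear_combination h0
    have hy : 2 * σ w * σ (ys w q₁ q₂ q₃) = σ q₁ * σ (xs w q₁ q₂) + 2 * σ w ^ 2 * σ q₃ := by
      have := hpos.ne'
      have e : σ (ys w q₁ q₂ q₃) = (σ q₁ * σ (xs w q₁ q₂) + 2 * σ w ^ 2 * σ q₃) / (2 * σ w) := by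
        simp [ys, map_ofNat]
      rw [e]
      field_simp
    have hx4 : 4 * σ w ^ 2 * (σ (xs w q₁ q₂) + σ q₂) = σ q₁ ^ 2 := by
      have e : σ (xs w q₁ q₂) = σ q₁ ^ 2 / (4 * σ w ^ 2) - σ q₂ := by simp [xs, map_ofNat]
      rw [e]
      have := hpos.ne'
      field_simp
      ring
    rw [Xr, div_eq_iff (pow_ne_zero 2 ht)] at hX
    generalize Real.sqrt (Qr (σ w) (σ q₁) (σ q₂) (σ q₃) (σ q₄) t) = s at hs hX
    unfold Qr at hs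
    have h3 : t ^ 3 ≠ 0 := pow_ne_zero 3 ht
    apply mul_left_cancel₀ h3
    generalize σ (xs w q₁ q₂) = A at hX hy hx4
    generalize σ (ys w q₁ q₂ q₃) = B at hy
    have hX' : 2 * σ w * s = A * t ^ 2 - σ q₁ * t - 2 * σ w ^ 2 := by linear_combination hX
    linear_combination (-(2 * σ w * s) - (A * t ^ 2 - σ q₁ * t - 2 * σ w ^ 2)) * hX' +
      4 * σ w ^ 2 * hs + t ^ 2 * hx4 - 2 * t ^ 3 * hy
  -- choose a good parameter
  obtain ⟨s, hs0, hs1, hst, hsN⟩ : ∃ s : ℝ, 0 < s ∧ s ≤ 1 ∧ |s * t - t| < ε / 2 ∧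
      4 * σ w ^ 2 * (Xr (σ w) (σ q₁) (σ q₂) (σ q₃) (σ q₄) (s * t) + σ q₂) - σ q₁ ^ 2 ≠ 0 := by
    set δ : ℝ := min (1 / 2) (ε / (4 * (|t| + 1))) with hδ
    have htp : 0 < |t| := abs_pos.2 ht
    have hδ0 : 0 < δ := lt_min (by norm_num) (by positivity)
    have hδ1 : δ ≤ 1 / 2 := min_le_left _ _
    have hδ2 : δ * |t| < ε / 2 := by
      have h5 : δ ≤ ε / (4 * (|t| + 1)) := min_le_right _ _
      calc δ * |t| ≤ ε / (4 * (|t| + 1)) * |t| := by gcongr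
        _ = ε / 4 * (|t| / (|t| + 1)) := by field_simp
        _ ≤ ε / 4 * 1 := by
            gcongr
            rw [div_le_one (by positivity)]
            linarith
        _ < ε / 2 := by linarith
    by_contra hcon
    push Not at hcon
    have hstep : ∀ μ : ℝ, 0 ≤ μ → μ ≤ δ → (σ (xs w q₁ q₂) ^ 2 - 4 * σ w ^ 2 * σ q₄) *
        ((1 - μ) * t) = 4 * σ w * σ (ys w q₁ q₂ q₃) := by
      intro μ hμ0 hμ
      have h1 : |(1 - μ) * t - t| < ε / 2 := by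
        have : (1 - μ) * t - t = -(μ * t) := by ring
        rw [this, abs_neg, abs_mul, abs_of_nonneg hμ0]
        exact (mul_le_mul_of_nonneg_right hμ htp.le).trans_lt hδ2
      have h2 := hcon (1 - μ) (by linarith) (by linarith) h1
      exact hexc _ (mul_ne_zero (by linarith) ht) (hseg _ (by linarith) (by linarith)).le h2
    have h5 := hstep 0 le_rfl hδ0.le
    have h6 := hstep δ hδ0.le le_rfl
    have h7 : (σ (xs w q₁ q₂) ^ 2 - 4 * σ w ^ 2 * σ q₄) * (δ * t) = 0 := by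
      linear_combination h5 - h6
    rcases mul_eq_zero.1 h7 with h8 | h8
    · rw [h8, zero_mul] at h5
      have : 4 * σ w * σ (ys w q₁ q₂ q₃) ≠ 0 :=
        mul_ne_zero (mul_ne_zero (by norm_num) hpos.ne') ((map_ne_zero σ).2 hys)
      exact this h5.symm
    · exact (mul_ne_zero hδ0.ne' ht) h8
  obtain ⟨r, Y, hrt, hY, hYQ⟩ := qm_main σ hw0 hD hS hpos
    (mul_ne_zero hs0.ne' ht) (fun s' h0 h1 => by
      rw [← mul_assoc]
      exact hseg (s' * s) (by positivity) (mul_le_one₀ h1 hs0.le hs1)) hsN (half_pos hε)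
  refine ⟨r, Y, ?_, hY, Or.inr hYQ⟩
  have := abs_sub_le (σ r) (s * t) t
  linarith

end Pool.Agent.U199.ZR
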